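import Mathlib

namespace Pool.Agent.H260TZ

open Submodule

/-- elementary data of a discrete valuation ring with finite residue field -/
structure DV (R : Type) [CommRing R] [IsDomain R] where
  t : R
  q : ℕ
  t_ne : t ≠ 0
  nu : ¬ IsUnit t
  dich : ∀ a : R, IsUnit a ∨ t ∣ a
  fac : ∀ a : R, a ≠ 0 → ∃ (n : ℕ) (u : Rˣ), a = t ^ n * u
  idl : ∀ I : Ideal R, I ≠ ⊥ → ∃ n : ℕ, I = Ideal.span {t ^ n}
  card : ∀ n : ℕ, Nat.card (R ⧸ Ideal.span {t ^ n}) = q ^ n
  two_le : 2 ≤ q

/-- index of a submodule -/
noncomputable abbrev idx {R M : Type} [CommRing R] [AddCommGroup M] [Module R M]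
    (N : Submodule R M) : ℕ := N.toAddSubgroup.index

section general
variable {R M M' : Type} [CommRing R] [AddCommGroup M] [Module R M] [AddCommGroup M'] [Module R M']

lemma idx_eq_card (N : Submodule R M) : idx N = Nat.card (M ⧸ N) := rfl

lemma idx_top : idx (⊤ : Submodule R M) = 1 := by
  unfold idx
  rw [Submodule.top_toAddSubgroup, AddSubgroup.index_top]

lemma idx_map_inj (f : M →ₗ[R] M') (hf : Function.Injective f) (N : Submodule R M) :
    idx (N.map f) = idx N * idx (LinearMap.range f) := by
  have := AddSubgroup.index_map_of_injective (H := N.toAddSubgroup) (f := f.toAddMonoidHom) hf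
  unfold idx
  exact this

lemma idx_map_dvd (f : M →ₗ[R] M') (hf : Function.Surjective f) (N : Submodule R M) :
    idx (N.map f) ∣ idx N := by
  have := AddSubgroup.index_map_dvd (H := N.toAddSubgroup) (f := f.toAddMonoidHom) hf
  unfold idx
  exact this

lemma idx_fst (U : Submodule R (M × M')) :
    idx U = idx (U.map (LinearMap.fst R M M')) * idx (U.comap (LinearMap.inr R M M')) := by
  unfold idx
  set H := U.toAddSubgroup with hH
  set f : M × M' →+ M := AddMonoidHom.fst M M' with hf
  set g : M' →+ M × M' := AddMonoidHom.inr M M' with hg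
  have h1 : (U.map (LinearMap.fst R M M')).toAddSubgroup = H.map f := rfl
  have h2 : (U.comap (LinearMap.inr R M M')).toAddSubgroup = H.comap g := rfl
  rw [h1, h2, AddSubgroup.index_map, AddSubgroup.index_comap]
  have hfs : f.range = ⊤ := AddMonoidHom.range_eq_top.mpr (fun x => ⟨(x, 0), rfl⟩)
  have hfk : f.ker = g.range := by
    ext ⟨a, b⟩
    simp [hf, hg, AddSubgroup.mem_prod, eq_comm]
  rw [hfs, AddSubgroup.index_top, mul_one, hfk]
  have h3 := AddSubgroup.relIndex_sup_right (H := g.range) (K := H)
  have h4 := AddSubgroup.relIndex_mul_index (H := H) (K := H ⊔ g.range) le_sup_left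
  rw [sup_comm, h3] at h4
  rw [sup_comm, ← h4, mul_comm]

lemma idx_snd (U : Submodule R (M × M')) :
    idx U = idx (U.map (LinearMap.snd R M M')) * idx (U.comap (LinearMap.inl R M M')) := by
  unfold idx
  set H := U.toAddSubgroup with hH
  set f : M × M' →+ M' := AddMonoidHom.snd M M' with hf
  set g : M →+ M × M' := AddMonoidHom.inl M M' with hg
  have h1 : (U.map (LinearMap.snd R M M')).toAddSubgroup = H.map f := rfl
  have h2 : (U.comap (LinearMap.inl R M M')).toAddSubgroup = H.comap g := rfl
  rw [h1, h2, AddSubgroup.index_map, AddSubgroup.index_comap]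
  have hfs : f.range = ⊤ := AddMonoidHom.range_eq_top.mpr (fun x => ⟨(0, x), rfl⟩)
  have hfk : f.ker = g.range := by
    ext ⟨a, b⟩
    simp [hf, hg, AddSubgroup.mem_prod, eq_comm]
  rw [hfs, AddSubgroup.index_top, mul_one, hfk]
  have h3 := AddSubgroup.relIndex_sup_right (H := g.range) (K := H)
  have h4 := AddSubgroup.relIndex_mul_index (H := H) (K := H ⊔ g.range) le_sup_left
  rw [sup_comm, h3] at h4
  rw [sup_comm, ← h4, mul_comm]

lemma idx_ker (f : M →ₗ[R] M') (hf : Function.Surjective f) :
    idx (LinearMap.ker f) = Nat.card M' := by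
  have := AddSubgroup.index_ker (f := f.toAddMonoidHom)
  have h2 : f.toAddMonoidHom.range = ⊤ := AddMonoidHom.range_eq_top.mpr hf
  rw [h2] at this
  have h3 : Nat.card (⊤ : AddSubgroup M') = Nat.card M' := AddSubgroup.card_top
  rw [h3] at this
  exact this

end general

end Pool.Agent.H260TZ
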