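import Pool.Agent.H260TZ.GenC

namespace Pool.Agent.H260TZ

open Submodule

namespace DV

variable {R : Type} [CommRing R] [IsDomain R] (D : DV R)

lemma dvd_lift_red_iff {n j : ℕ} (hj : j ≤ n) (c a : R) :
    D.t ^ j ∣ D.lift (D.red n c) - a ↔ D.t ^ j ∣ c - a := by
  have h1 : D.t ^ j ∣ D.lift (D.red n c) - c := (pow_dvd_pow _ hj).trans (D.lift_red c)
  have e : D.lift (D.red n c) - a = (D.lift (D.red n c) - c) + (c - a) := by ring
  rw [e]
  exact dvd_add_right h1

lemma card_near {n j : ℕ} (hj : j ≤ n) (a : R) :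
    Nat.card {z : D.Q n // D.t ^ j ∣ D.lift z - a} = D.q ^ (n - j) := by
  rw [← D.card (n - j)]
  symm
  have hp : D.t ^ n = D.t ^ j * D.t ^ (n - j) := by rw [← pow_add]; congr 1; omega
  refine Nat.card_eq_of_bijective (fun w : D.Q (n - j) =>
    (⟨D.red n (a + D.t ^ j * D.lift w), ?_⟩ : {z : D.Q n // D.t ^ j ∣ D.lift z - a})) ⟨?_, ?_⟩
  · rw [D.dvd_lift_red_iff hj]
    exact ⟨D.lift w, by ring⟩
  · intro w w' h
    have h1 := congrArg Subtype.val h
    simp only at h1
    rw [D.red_eq] at h1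
    have e : a + D.t ^ j * D.lift w - (a + D.t ^ j * D.lift w') =
      D.t ^ j * (D.lift w - D.lift w') := by ring
    rw [e, hp, mul_dvd_mul_iff_left (D.tpow_ne _), ← D.red_eq, D.red_lift, D.red_lift] at h1
    exact h1
  · rintro ⟨z, c, hc⟩
    refine ⟨D.red (n - j) c, ?_⟩
    apply Subtype.ext
    simp only
    rw [← D.red_lift z, D.red_eq]
    have h1 : D.lift z = a + D.t ^ j * c := by rw [← hc]; ring
    rw [h1]
    have e : a + D.t ^ j * D.lift (D.red (n - j) c) - (a + D.t ^ j * c) =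
      D.t ^ j * (D.lift (D.red (n - j) c) - c) := by ring
    rw [e, hp]
    exact mul_dvd_mul_left _ (D.lift_red c)

lemma root_small {i k : ℕ} (hik : i ≤ 2 * k) (a : R) :
    D.t ^ i ∣ a * (D.t ^ k - a) ↔ D.t ^ ((i + 1) / 2) ∣ a := by
  have hck : (i + 1) / 2 ≤ k := by omega
  constructor
  · intro h
    by_cases ha : a = 0
    · rw [ha]; exact dvd_zero _
    obtain ⟨v, u, hvu⟩ := D.fac a ha
    by_contra hc
    have hv : v < (i + 1) / 2 := by
      by_contra hcv
      push Not at hcv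
      exact hc ((pow_dvd_pow _ hcv).trans ⟨u, hvu⟩)
    have hvk : v < k := by omega
    have e : a * (D.t ^ k - a) = D.t ^ (2 * v) * (u * (D.t ^ (k - v) - u)) := by
      have : D.t ^ k = D.t ^ v * D.t ^ (k - v) := by rw [← pow_add]; congr 1; omega
      rw [hvu, this]; ring
    have hu2 : IsUnit ((D.t ^ (k - v) - (u : R))) := by
      rw [← D.not_dvd_iff]
      intro hd
      have h1 : D.t ∣ D.t ^ (k - v) := dvd_pow_self _ (by omega)
      have h2 := (dvd_sub_right h1).mp hd
      exact D.not_unit_of_dvd h2 u.isUnit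
    rw [e] at h
    obtain ⟨j, hj⟩ : ∃ j, i = 2 * v + (j + 1) := ⟨i - 2 * v - 1, by omega⟩
    rw [hj, pow_add, mul_dvd_mul_iff_left (D.tpow_ne _)] at h
    exact D.pow_not_dvd_unit (Nat.succ_ne_zero j) (u.isUnit.mul hu2) h
  · rintro ⟨b, rfl⟩
    have h1 : D.t ^ ((i + 1) / 2) ∣ D.t ^ k - D.t ^ ((i + 1) / 2) * b :=
      dvd_sub (pow_dvd_pow _ hck) (Dvd.intro _ rfl)
    have h2 := mul_dvd_mul (Dvd.intro b rfl : D.t ^ ((i + 1) / 2) ∣ D.t ^ ((i + 1) / 2) * b) h1
    rw [← pow_add] at h2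
    exact (pow_dvd_pow _ (by omega)).trans h2

lemma root_big {i k : ℕ} (hik : 2 * k < i) (a : R) :
    D.t ^ i ∣ a * (D.t ^ k - a) ↔ (D.t ^ (i - k) ∣ a - 0 ∨ D.t ^ (i - k) ∣ a - D.t ^ k) := by
  rw [sub_zero]
  have hi : D.t ^ i = D.t ^ (i - k) * D.t ^ k := by rw [← pow_add]; congr 1; omega
  constructor
  · intro h
    by_cases ha : a = 0
    · left; rw [ha]; exact dvd_zero _
    obtain ⟨v, u, hvu⟩ := D.fac a ha
    by_cases hvk : v < k
    · exfalso
      have e : a * (D.t ^ k - a) = D.t ^ (2 * v) * (u * (D.t ^ (k - v) - u)) := by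
        have : D.t ^ k = D.t ^ v * D.t ^ (k - v) := by rw [← pow_add]; congr 1; omega
        rw [hvu, this]; ring
      have hu2 : IsUnit ((D.t ^ (k - v) - (u : R))) := by
        rw [← D.not_dvd_iff]
        intro hd
        have h1 : D.t ∣ D.t ^ (k - v) := dvd_pow_self _ (by omega)
        have h2 := (dvd_sub_right h1).mp hd
        exact D.not_unit_of_dvd h2 u.isUnit
      rw [e] at h
      obtain ⟨j, hj⟩ : ∃ j, i = 2 * v + (j + 1) := ⟨i - 2 * v - 1, by omega⟩
      rw [hj, pow_add, mul_dvd_mul_iff_left (D.tpow_ne _)] at h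
      exact D.pow_not_dvd_unit (Nat.succ_ne_zero j) (u.isUnit.mul hu2) h
    · push Not at hvk
      obtain ⟨b, rfl⟩ : D.t ^ k ∣ a := (pow_dvd_pow _ hvk).trans ⟨u, hvu⟩
      have e : D.t ^ k * b * (D.t ^ k - D.t ^ k * b) = D.t ^ (2 * k) * (b * (1 - b)) := by ring
      have e2 : D.t ^ i = D.t ^ (2 * k) * D.t ^ (i - 2 * k) := by
        rw [← pow_add]; congr 1; omega
      rw [e, e2, mul_dvd_mul_iff_left (D.tpow_ne _)] at h
      have e3 : D.t ^ (i - k) = D.t ^ k * D.t ^ (i - 2 * k) := by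
        rw [← pow_add]; congr 1; omega
      by_cases hb : D.t ∣ b
      · left
        have hub : IsUnit (1 - b) := by
          rw [← D.not_dvd_iff]
          intro hd
          have := dvd_add hd hb
          rw [sub_add_cancel] at this
          exact D.not_dvd_one this
        rw [e3, mul_dvd_mul_iff_left (D.tpow_ne _)]
        exact hub.dvd_mul_right.mp h
      · right
        have hub : IsUnit b := D.not_dvd_iff.mp hb
        have h2 := hub.dvd_mul_left.mp h
        have e4 : D.t ^ k * b - D.t ^ k = D.t ^ k * -(1 - b) := by ring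
        rw [e3, e4, mul_dvd_mul_iff_left (D.tpow_ne _), dvd_neg]
        exact h2
  · rintro (h | h)
    · rw [hi]
      refine mul_dvd_mul h (dvd_sub dvd_rfl ((pow_dvd_pow _ ?_).trans h))
      omega
    · have hk : D.t ^ k ∣ a - D.t ^ k := (pow_dvd_pow _ (by omega)).trans h
      have hk2 : D.t ^ k ∣ a := (dvd_sub_left (dvd_refl _)).mp hk
      rw [hi, mul_comm]
      have h' : D.t ^ (i - k) ∣ D.t ^ k - a := (dvd_sub_comm).mp h
      exact mul_dvd_mul hk2 h'

/-- root counts -/
def Nk (k i : ℕ) : ℕ := if i ≤ 2 * k then D.q ^ (i / 2) else 2 * D.q ^ k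

lemma card_root {n i : ℕ} (hi : i ≤ n) (k : ℕ) :
    Nat.card {z : D.Q n // D.t ^ i ∣ D.lift z * (D.t ^ k - D.lift z)} =
      D.q ^ (n - i) * D.Nk k i := by
  classical
  unfold Nk
  by_cases h : i ≤ 2 * k
  · rw [if_pos h]
    have e : Nat.card {z : D.Q n // D.t ^ i ∣ D.lift z * (D.t ^ k - D.lift z)} =
        Nat.card {z : D.Q n // D.t ^ ((i + 1) / 2) ∣ D.lift z - 0} := by
      apply Nat.card_congr
      refine Equiv.subtypeEquivRight fun z => ?_
      rw [D.root_small h, sub_zero]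
    rw [e, D.card_near (by omega), ← pow_add]
    congr 1
    omega
  · rw [if_neg h]
    push Not at h
    have hd : Disjoint (fun z : D.Q n => D.t ^ (i - k) ∣ D.lift z - 0)
        (fun z : D.Q n => D.t ^ (i - k) ∣ D.lift z - D.t ^ k) := by
      rw [Pi.disjoint_iff]
      intro z
      rw [disjoint_iff_inf_le]
      rintro ⟨h1, h2⟩
      have h3 := dvd_sub h1 h2
      have e : D.lift z - 0 - (D.lift z - D.t ^ k) = D.t ^ k * 1 := by ring
      obtain ⟨j, hj⟩ : ∃ j, i - k = k + (j + 1) := ⟨i - k - k - 1, by omega⟩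
      rw [e, hj, pow_add, mul_dvd_mul_iff_left (D.tpow_ne _)] at h3
      exact D.pow_not_dvd_unit (Nat.succ_ne_zero j) isUnit_one h3
    have e : Nat.card {z : D.Q n // D.t ^ i ∣ D.lift z * (D.t ^ k - D.lift z)} =
        Nat.card {z : D.Q n // D.t ^ (i - k) ∣ D.lift z - 0 ∨
          D.t ^ (i - k) ∣ D.lift z - D.t ^ k} := by
      apply Nat.card_congr
      refine Equiv.subtypeEquivRight fun z => ?_
      rw [D.root_big h]
    rw [e, Nat.card_congr (subtypeOrEquiv _ _ hd), Nat.card_sum,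
      D.card_near (by omega), D.card_near (by omega)]
    have e2 : D.q ^ (n - (i - k)) = D.q ^ (n - i) * D.q ^ k := by
      rw [← pow_add]; congr 1; omega
    rw [e2]; ring

lemma sum_lev {n : ℕ} (h : ℕ → ℝ) (d : D.Q n → R) :
    ∑ z : D.Q n, h (D.lev n (d z)) = h 0 * (D.q : ℝ) ^ n +
      ∑ i ∈ Finset.range n, (h (i + 1) - h i) *
        (Nat.card {z : D.Q n // D.t ^ (i + 1) ∣ d z} : ℝ) := by
  classical
  have key : ∀ z : D.Q n, h (D.lev n (d z)) = h 0 +
      ∑ i ∈ Finset.range n, (h (i + 1) - h i) * (if D.t ^ (i + 1) ∣ d z then 1 else 0) := by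
    intro z
    have h1 : ∑ i ∈ Finset.range n, (h (i + 1) - h i) *
        (if D.t ^ (i + 1) ∣ d z then (1 : ℝ) else 0) =
        ∑ i ∈ Finset.range (D.lev n (d z)), (h (i + 1) - h i) := by
      rw [← Finset.sum_subset (Finset.range_subset_range.mpr (D.lev_le n (d z)))]
      · apply Finset.sum_congr rfl
        intro i hi
        rw [Finset.mem_range] at hi
        have := D.lev_le n (d z)
        rw [if_pos ((D.dvd_iff_lev (n := n) (by omega) _).mpr (by omega)), mul_one]
      · intro i hi hi2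
        rw [Finset.mem_range] at hi hi2
        rw [if_neg, mul_zero]
        rw [D.dvd_iff_lev (n := n) (by omega)]
        omega
    rw [h1, Finset.sum_range_sub]
    ring
  rw [Finset.sum_congr rfl (fun z _ => key z), Finset.sum_add_distrib, Finset.sum_const,
    Finset.card_univ, D.card_Q, nsmul_eq_mul, Finset.sum_comm]
  push_cast
  rw [mul_comm]
  congr 1
  apply Finset.sum_congr rfl
  intro i _
  rw [← Finset.mul_sum]
  congr 1
  rw [Finset.sum_boole, Nat.card_eq_fintype_card, Fintype.card_subtype]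

end DV

end Pool.Agent.H260TZ
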