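import Mathlib

namespace Pool.Agent.H260TZ

open Polynomial

/-- The multiplication on `Fin d → R` with structure constants `c i j k`. -/
def mulR {d : ℕ} (c : Fin d → Fin d → Fin d → ℤ) (R : Type) [CommRing R]
    (x y : Fin d → R) : Fin d → R :=
  fun k => ∑ i, ∑ j, (c i j k : R) * (x i * y j)

/-- The `R`-submodules of finite index of `Fin d → R` closed under `mulR c R`. -/
def FinSub {d : ℕ} (c : Fin d → Fin d → Fin d → ℤ) (R : Type) [CommRing R] : Type :=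
  {U : Submodule R (Fin d → R) //
    (∀ x ∈ U, ∀ y ∈ U, mulR c R x y ∈ U) ∧ Finite ((Fin d → R) ⧸ U)}

/-- `ZVal c R q s v`: the subalgebra zeta function of the algebra with structure constants `c`
over `R` is, for large real argument, a rational function `P/Q` of `q ^ (-s)` with rational
coefficients, `Q` does not vanish at `q ^ (-s)`, and `v` is `(1 - 1/q)^d` times the value
of that rational function at `q ^ (-s)`. -/
def ZVal {d : ℕ} (c : Fin d → Fin d → Fin d → ℤ) (R : Type) [CommRing R]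
    (q : ℕ) (s : ℤ) (v : ℚ) : Prop :=
  ∃ (P Q : ℚ[X]) (σ₀ : ℝ),
    (∀ σ : ℝ, σ₀ < σ → aeval ((q : ℝ) ^ (-σ)) Q ≠ 0 ∧
      HasSum (fun U : FinSub c R => (Nat.card ((Fin d → R) ⧸ U.1) : ℝ) ^ (-σ))
        (aeval ((q : ℝ) ^ (-σ)) P / aeval ((q : ℝ) ^ (-σ)) Q)) ∧
    Q.eval ((q : ℚ) ^ (-s)) ≠ 0 ∧
    v = (1 - (q : ℚ)⁻¹) ^ d * (P.eval ((q : ℚ) ^ (-s)) / Q.eval ((q : ℚ) ^ (-s)))

/-- `IsTopZeta c N D`: the rational function `N/D` is the topological subalgebra zeta function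
of the `ℤ`-algebra with structure constants `c`. The ring `WittVector p (GaloisField p n)` is the
valuation ring of the unramified extension of degree `n` of the field of `p`-adic numbers. -/
def IsTopZeta {d : ℕ} (c : Fin d → Fin d → Fin d → ℤ) (N D : ℚ[X]) : Prop :=
  D ≠ 0 ∧ ∃ H : Set ℤ, H.Finite ∧ ∀ (ℓ : ℕ) [Fact ℓ.Prime],
    ∃ S : Set ℕ, S.Finite ∧ ∀ (p : ℕ) [Fact p.Prime], p ∉ S →
      ∃ e : ℕ, 1 ≤ e ∧ ∀ s : ℤ, s ∉ H → D.eval (s : ℚ) ≠ 0 ∧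
        ∀ ε : ℝ, 0 < ε → ∃ m : ℕ, ∀ f : ℕ, 1 ≤ f → ℓ ^ m ∣ f →
          ∃ v : ℚ, ZVal c (WittVector p (GaloisField p (e * f))) (p ^ (e * f)) s v ∧
            ‖((v - N.eval (s : ℚ) / D.eval (s : ℚ) : ℚ) : ℚ_[ℓ])‖ < ε

end Pool.Agent.H260TZ
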