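import Pool.Agent.H260TZ.Struct

namespace Pool.Agent.H260TZ

open Submodule

/-- closed submodules of `B × M` -/
def CL {R : Type} [CommRing R] (U : Submodule R ((R × R) × (R × R))) : Prop :=
  ∀ u ∈ U, ∀ u' ∈ U, ((0 : R × R), u.1 * u'.2) ∈ U

/-- closed submodules of finite index -/
abbrev UU (R : Type) [CommRing R] : Type :=
  {U : Submodule R ((R × R) × (R × R)) // CL U ∧ idx U ≠ 0}

/-- generating pairs of the quotient -/
abbrev Gen {R : Type} [CommRing R] (L : Submodule R (R × R)) : Type :=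
  {w : ((R × R) ⧸ L) × ((R × R) ⧸ L) // ∀ v, ∃ a b : R, a • w.1 + b • w.2 = v}

namespace DV

variable {R : Type} [CommRing R] [IsDomain R] (D : DV R)

/-- type of a lattice -/
noncomputable def kP (P : Lat R) : ℕ := D.kk (D.parE.symm P)

lemma exists_dlt (P : Lat R) : ∃ δ : R × R, δ.1 ≠ 0 ∧ δ.2 ≠ 0 ∧
    LinearMap.range ((LinearMap.mulLeft R δ).comp (D.gam (D.kP P))) = P.1 := by
  have := D.par_delta (D.parE.symm P)
  rw [← D.parE_val, Equiv.apply_symm_apply] at this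
  exact this

/-- chosen multiplier -/
noncomputable def dlt (P : Lat R) : R × R := (D.exists_dlt P).choose

lemma dlt_inj (P : Lat R) : Function.Injective (LinearMap.mulLeft R (D.dlt P)) := by
  obtain ⟨h1, h2, -⟩ := (D.exists_dlt P).choose_spec
  intro v w h
  rw [LinearMap.mulLeft_apply, LinearMap.mulLeft_apply] at h
  have e1 := congrArg Prod.fst h
  have e2 := congrArg Prod.snd h
  rw [Prod.fst_mul, Prod.fst_mul] at e1
  rw [Prod.snd_mul, Prod.snd_mul] at e2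
  exact Prod.ext (mul_left_cancel₀ h1 e1) (mul_left_cancel₀ h2 e2)

/-- chosen parametrization of a lattice -/
noncomputable def gP (P : Lat R) : (R × R) →ₗ[R] (R × R) :=
  (LinearMap.mulLeft R (D.dlt P)).comp (D.gam (D.kP P))

lemma gP_inj (P : Lat R) : Function.Injective (D.gP P) :=
  (D.dlt_inj P).comp (D.gam_inj _)

lemma gP_range (P : Lat R) : LinearMap.range (D.gP P) = P.1 := (D.exists_dlt P).choose_spec.2.2

lemma gP_mem (P : Lat R) (v : R × R) : D.gP P v ∈ P.1 := by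
  rw [← D.gP_range P]; exact LinearMap.mem_range_self _ _

lemma exists_gP {P : Lat R} {y : R × R} (hy : y ∈ P.1) : ∃ v, D.gP P v = y := by
  rw [← D.gP_range P] at hy; exact hy

lemma idx_map_gP (P : Lat R) (N : Submodule R (R × R)) :
    idx (N.map (D.gP P)) = idx N * idx P.1 := by
  rw [idx_map_inj _ (D.gP_inj P), D.gP_range]

/-- closedness in terms of the colon lattice -/
lemma mem_II_iff (P : Lat R) (L' : Submodule R (R × R)) (b : R × R) :
    b ∈ D.II (D.kP P) L' ↔ ∀ y ∈ P.1, b * y ∈ L'.map (D.gP P) := by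
  rw [D.mem_II]
  have e : ∀ v, b * D.gP P v = LinearMap.mulLeft R (D.dlt P) (b * D.gam (D.kP P) v) := by
    intro v
    show b * (D.dlt P * D.gam (D.kP P) v) = D.dlt P * (b * D.gam (D.kP P) v)
    ring
  have hm : L'.map (D.gP P) = (L'.map (D.gam (D.kP P))).map (LinearMap.mulLeft R (D.dlt P)) := by
    rw [← Submodule.map_comp]; rfl
  constructor
  · intro h y hy
    obtain ⟨v, rfl⟩ := D.exists_gP hy
    rw [e, hm]
    exact Submodule.mem_map_of_mem (h v)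
  · intro h v
    have := h _ (D.gP_mem P v)
    rw [e, hm] at this
    obtain ⟨w, hw, hw2⟩ := this
    rw [← D.dlt_inj P hw2]
    exact hw

lemma idx_P_ne (U : UU R) : idx (U.1.map (LinearMap.snd R (R × R) (R × R))) ≠ 0 := by
  intro h
  apply U.2.2
  rw [idx_snd, h, zero_mul]

lemma idx_J_ne (U : UU R) : idx (U.1.map (LinearMap.fst R (R × R) (R × R))) ≠ 0 := by
  intro h
  apply U.2.2
  rw [idx_fst, h, zero_mul]

lemma idx_L_ne (U : UU R) : idx (U.1.comap (LinearMap.inr R (R × R) (R × R))) ≠ 0 := by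
  intro h
  apply U.2.2
  rw [idx_fst, h, mul_zero]

/-- second projection -/
noncomputable def pP (U : UU R) : Lat R := ⟨U.1.map (LinearMap.snd R (R × R) (R × R)), idx_P_ne U⟩

/-- first projection -/
noncomputable def pJ (U : UU R) : Lat R := ⟨U.1.map (LinearMap.fst R (R × R) (R × R)), idx_J_ne U⟩

lemma L_le (U : UU R) :
    U.1.comap (LinearMap.inr R (R × R) (R × R)) ≤ LinearMap.range (D.gP (pP U)) := by
  rw [D.gP_range]
  intro z hz
  exact ⟨((0 : R × R), z), hz, rfl⟩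

lemma map_L' (U : UU R) :
    ((U.1.comap (LinearMap.inr R (R × R) (R × R))).comap (D.gP (pP U))).map (D.gP (pP U)) =
      U.1.comap (LinearMap.inr R (R × R) (R × R)) :=
  Submodule.map_comap_eq_of_le (D.L_le U)

lemma idx_L'_ne (U : UU R) :
    idx ((U.1.comap (LinearMap.inr R (R × R) (R × R))).comap (D.gP (pP U))) ≠ 0 := by
  intro h
  apply idx_L_ne U
  rw [← D.map_L' U, D.idx_map_gP, h, zero_mul]

/-- coordinates of the kernel part -/
noncomputable def pL (U : UU R) : Lat R :=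
  ⟨(U.1.comap (LinearMap.inr R (R × R) (R × R))).comap (D.gP (pP U)), D.idx_L'_ne U⟩

lemma idx_UU (U : UU R) : idx U.1 = idx (pJ U).1 * (idx (D.pL U).1 * idx (pP U).1) := by
  rw [idx_fst, ← D.idx_map_gP]
  congr 2
  exact (D.map_L' U).symm

/-- the map to triples of lattices -/
noncomputable def Phi (U : UU R) : Lat R × (Lat R × Lat R) := (pP U, (D.pL U, pJ U))

lemma J_le (U : UU R) : (pJ U).1 ≤ D.II (D.kP (pP U)) (D.pL U).1 := by
  rintro b ⟨u, hu, rfl⟩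
  rw [D.mem_II_iff]
  rintro y ⟨u', hu', rfl⟩
  have h := U.2.1 u hu u' hu'
  show u.1 * u'.2 ∈ _
  have e : (D.pL U).1.map (D.gP (pP U)) = U.1.comap (LinearMap.inr R (R × R) (R × R)) :=
    D.map_L' U
  rw [e]
  exact h

section fibre

variable (P L J : Lat R)

/-- the submodule attached to a pair -/
noncomputable def Uw (w : ((R × R) ⧸ L.1) × ((R × R) ⧸ L.1)) :
    Submodule R ((R × R) × (R × R)) :=
  (LinearMap.ker (((LinearMap.toSpanSingleton R _ w.1).coprod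
    (LinearMap.toSpanSingleton R _ w.2)).coprod (-(L.1.mkQ)))).map
      ((D.gP J).prodMap (D.gP P))

lemma mem_Uw {w : ((R × R) ⧸ L.1) × ((R × R) ⧸ L.1)} {u : (R × R) × (R × R)} :
    u ∈ D.Uw P L J w ↔ ∃ a c : R × R, L.1.mkQ c = a.1 • w.1 + a.2 • w.2 ∧
      D.gP J a = u.1 ∧ D.gP P c = u.2 := by
  unfold Uw
  constructor
  · rintro ⟨v, hv, rfl⟩
    refine ⟨v.1, v.2, ?_, rfl, rfl⟩
    have hv' : ((v.1.1 • w.1 + v.1.2 • w.2) + (-(L.1.mkQ)) v.2) = 0 := hv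
    rw [LinearMap.neg_apply, add_neg_eq_zero] at hv'
    exact hv'.symm
  · rintro ⟨a, c, h1, h2, h3⟩
    refine ⟨(a, c), ?_, Prod.ext h2 h3⟩
    show ((a.1 • w.1 + a.2 • w.2) + (-(L.1.mkQ)) c) = 0
    rw [LinearMap.neg_apply, add_neg_eq_zero, h1]

lemma Uw_fst (w : ((R × R) ⧸ L.1) × ((R × R) ⧸ L.1)) :
    (D.Uw P L J w).map (LinearMap.fst R (R × R) (R × R)) = J.1 := by
  ext x
  constructor
  · rintro ⟨u, hu, rfl⟩
    obtain ⟨a, c, -, h2, -⟩ := (D.mem_Uw P L J).mp hu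
    show u.1 ∈ J.1
    rw [← h2]
    exact D.gP_mem J a
  · intro hx
    obtain ⟨a, rfl⟩ := D.exists_gP hx
    obtain ⟨c, hc⟩ := Submodule.mkQ_surjective L.1 (a.1 • w.1 + a.2 • w.2)
    exact ⟨(D.gP J a, D.gP P c), (D.mem_Uw P L J).mpr ⟨a, c, hc, rfl, rfl⟩, rfl⟩

lemma Uw_snd (w : Gen L.1) :
    (D.Uw P L J w.1).map (LinearMap.snd R (R × R) (R × R)) = P.1 := by
  ext x
  constructor
  · rintro ⟨u, hu, rfl⟩
    obtain ⟨a, c, -, -, h3⟩ := (D.mem_Uw P L J).mp hu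
    show u.2 ∈ P.1
    rw [← h3]
    exact D.gP_mem P c
  · intro hx
    obtain ⟨c, rfl⟩ := D.exists_gP hx
    obtain ⟨a, b, hab⟩ := w.2 (L.1.mkQ c)
    exact ⟨(D.gP J (a, b), D.gP P c), (D.mem_Uw P L J).mpr ⟨(a, b), c, hab.symm, rfl, rfl⟩, rfl⟩

lemma Uw_inr (w : ((R × R) ⧸ L.1) × ((R × R) ⧸ L.1)) :
    (D.Uw P L J w).comap (LinearMap.inr R (R × R) (R × R)) = L.1.map (D.gP P) := by
  ext z
  rw [Submodule.mem_comap]
  constructor
  · intro hz
    obtain ⟨a, c, h1, h2, h3⟩ := (D.mem_Uw P L J).mp hz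
    have h2' : D.gP J a = 0 := h2
    have ha : a = 0 := D.gP_inj J (by rw [h2', map_zero])
    rw [ha] at h1
    have h1' : L.1.mkQ c = 0 := by rw [h1]; simp
    rw [Submodule.mkQ_apply, Submodule.Quotient.mk_eq_zero] at h1'
    exact ⟨c, h1', h3⟩
  · rintro ⟨c, hc, rfl⟩
    refine (D.mem_Uw P L J).mpr ⟨0, c, ?_, ?_, rfl⟩
    · rw [Submodule.mkQ_apply, (Submodule.Quotient.mk_eq_zero _).mpr hc]; simp
    · rw [map_zero]; rfl

lemma Uw_closed (w : ((R × R) ⧸ L.1) × ((R × R) ⧸ L.1)) (hJ : J.1 ≤ D.II (D.kP P) L.1) :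
    CL (D.Uw P L J w) := by
  intro u hu u' hu'
  have h : u.1 * u'.2 ∈ (D.Uw P L J w).comap (LinearMap.inr R (R × R) (R × R)) := by
    rw [D.Uw_inr]
    obtain ⟨a, c, -, h2, -⟩ := (D.mem_Uw P L J).mp hu
    obtain ⟨a', c', -, -, h3'⟩ := (D.mem_Uw P L J).mp hu'
    have hb : u.1 ∈ D.II (D.kP P) L.1 := hJ (by rw [← h2]; exact D.gP_mem J a)
    exact (D.mem_II_iff P L.1 _).mp hb _ (by rw [← h3']; exact D.gP_mem P c')
  exact h

lemma Uw_idx (w : ((R × R) ⧸ L.1) × ((R × R) ⧸ L.1)) : idx (D.Uw P L J w) ≠ 0 := by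
  rw [idx_fst, D.Uw_fst, D.Uw_inr, D.idx_map_gP]
  exact mul_ne_zero J.2 (mul_ne_zero L.2 P.2)

/-- as an element of `UU` -/
noncomputable def Uw' (hJ : J.1 ≤ D.II (D.kP P) L.1) (w : Gen L.1) : UU R :=
  ⟨D.Uw P L J w.1, D.Uw_closed P L J w.1 hJ, D.Uw_idx P L J w.1⟩

lemma Phi_Uw' (hJ : J.1 ≤ D.II (D.kP P) L.1) (w : Gen L.1) :
    D.Phi (D.Uw' P L J hJ w) = (P, (L, J)) := by
  have hP : pP (D.Uw' P L J hJ w) = P := Subtype.ext (D.Uw_snd P L J w)
  have hJ' : pJ (D.Uw' P L J hJ w) = J := Subtype.ext (D.Uw_fst P L J w.1)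
  have hL : D.pL (D.Uw' P L J hJ w) = L := by
    apply Subtype.ext
    unfold pL
    simp only
    rw [hP]
    show ((D.Uw P L J w.1).comap (LinearMap.inr R (R × R) (R × R))).comap (D.gP P) = L.1
    rw [D.Uw_inr, Submodule.comap_map_eq_of_injective (D.gP_inj P)]
  unfold Phi
  rw [hP, hJ', hL]

lemma Uw_inj (hJ : J.1 ≤ D.II (D.kP P) L.1) : Function.Injective (D.Uw' P L J hJ) := by
  intro w w' h
  have hU : D.Uw P L J w.1 = D.Uw P L J w'.1 := congrArg Subtype.val h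
  have key : ∀ (a c : R × R), L.1.mkQ c = a.1 • w.1.1 + a.2 • w.1.2 →
      L.1.mkQ c = a.1 • w'.1.1 + a.2 • w'.1.2 := by
    intro a c hc
    have h1 : (D.gP J a, D.gP P c) ∈ D.Uw P L J w.1 :=
      (D.mem_Uw P L J).mpr ⟨a, c, hc, rfl, rfl⟩
    rw [hU] at h1
    obtain ⟨a', c', h2, h3, h4⟩ := (D.mem_Uw P L J).mp h1
    rw [← D.gP_inj J h3, ← D.gP_inj P h4]
    exact h2
  apply Subtype.ext
  refine Prod.ext ?_ ?_
  · obtain ⟨c, hc⟩ := Submodule.mkQ_surjective L.1 w.1.1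
    have := key (1, 0) c (by simpa using hc)
    rw [hc] at this
    simpa using this
  · obtain ⟨c, hc⟩ := Submodule.mkQ_surjective L.1 w.1.2
    have := key (0, 1) c (by simpa using hc)
    rw [hc] at this
    simpa using this

lemma Uw_surj (hJ : J.1 ≤ D.II (D.kP P) L.1) (U : UU R) (hU : D.Phi U = (P, (L, J))) :
    ∃ w, D.Uw' P L J hJ w = U := by
  have hP : pP U = P := congrArg Prod.fst hU
  have hL : D.pL U = L := congrArg (fun x => x.2.1) hU
  have hJ' : pJ U = J := congrArg (fun x => x.2.2) hU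
  have hP1 : U.1.map (LinearMap.snd R (R × R) (R × R)) = P.1 := congrArg Subtype.val hP
  have hJ1 : U.1.map (LinearMap.fst R (R × R) (R × R)) = J.1 := congrArg Subtype.val hJ'
  have hL1 : U.1.comap (LinearMap.inr R (R × R) (R × R)) = L.1.map (D.gP P) := by
    have := D.map_L' U
    rw [← this, ← hL, ← hP]
    rfl
  have ex : ∀ a : R × R, ∃ c : R × R, (D.gP J a, D.gP P c) ∈ U.1 := by
    intro a
    have h1 := D.gP_mem J a
    rw [← hJ1] at h1
    obtain ⟨u, hu, hu2⟩ := h1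
    have h2 : u.2 ∈ P.1 := by rw [← hP1]; exact ⟨u, hu, rfl⟩
    obtain ⟨c, hc⟩ := D.exists_gP h2
    refine ⟨c, ?_⟩
    rw [hc, ← hu2]
    exact hu
  obtain ⟨c1, hc1⟩ := ex (1, 0)
  obtain ⟨c2, hc2⟩ := ex (0, 1)
  have key : ∀ a c : R × R, (D.gP J a, D.gP P c) ∈ U.1 ↔
      L.1.mkQ c = a.1 • L.1.mkQ c1 + a.2 • L.1.mkQ c2 := by
    intro a c
    have e1 : (D.gP J a, D.gP P c) = ((0 : R × R), D.gP P (c - (a.1 • c1 + a.2 • c2))) +
        (a.1 • (D.gP J (1, 0), D.gP P c1) + a.2 • (D.gP J (0, 1), D.gP P c2)) := by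
      refine Prod.ext ?_ ?_
      · show D.gP J a = 0 + (a.1 • D.gP J (1, 0) + a.2 • D.gP J (0, 1))
        rw [zero_add, ← map_smul, ← map_smul, ← map_add]
        congr 1
        refine Prod.ext ?_ ?_
        · show a.1 = a.1 * 1 + a.2 * 0
          ring
        · show a.2 = a.1 * 0 + a.2 * 1
          ring
      · show D.gP P c = D.gP P (c - (a.1 • c1 + a.2 • c2)) + (a.1 • D.gP P c1 + a.2 • D.gP P c2)
        rw [← map_smul, ← map_smul, ← map_add, ← map_add]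
        congr 1
        abel
    have hmem : a.1 • (D.gP J (1, 0), D.gP P c1) + a.2 • (D.gP J (0, 1), D.gP P c2) ∈ U.1 :=
      U.1.add_mem (U.1.smul_mem _ hc1) (U.1.smul_mem _ hc2)
    rw [e1, Submodule.add_mem_iff_left _ hmem]
    have e2 : (((0 : R × R), D.gP P (c - (a.1 • c1 + a.2 • c2))) ∈ U.1) ↔
        D.gP P (c - (a.1 • c1 + a.2 • c2)) ∈ U.1.comap (LinearMap.inr R (R × R) (R × R)) := Iff.rfl
    rw [e2, hL1]
    have e3 : D.gP P (c - (a.1 • c1 + a.2 • c2)) ∈ L.1.map (D.gP P) ↔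
        c - (a.1 • c1 + a.2 • c2) ∈ L.1 := by
      constructor
      · rintro ⟨v, hv, hv2⟩
        rw [← D.gP_inj P hv2]; exact hv
      · intro h
        exact Submodule.mem_map_of_mem h
    rw [e3, ← Submodule.Quotient.mk_eq_zero, ← Submodule.mkQ_apply, map_sub, map_add, map_smul,
      map_smul, sub_eq_zero]
  have hgen : ∀ v, ∃ a b : R, a • L.1.mkQ c1 + b • L.1.mkQ c2 = v := by
    intro v
    obtain ⟨c, rfl⟩ := Submodule.mkQ_surjective L.1 v
    have h1 := D.gP_mem P c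
    rw [← hP1] at h1
    obtain ⟨u, hu, hu2⟩ := h1
    have h2 : u.1 ∈ J.1 := by rw [← hJ1]; exact ⟨u, hu, rfl⟩
    obtain ⟨a, ha⟩ := D.exists_gP h2
    refine ⟨a.1, a.2, ((key a c).mp ?_).symm⟩
    rw [ha, ← hu2]
    exact hu
  refine ⟨⟨(L.1.mkQ c1, L.1.mkQ c2), hgen⟩, ?_⟩
  apply Subtype.ext
  show D.Uw P L J (L.1.mkQ c1, L.1.mkQ c2) = U.1
  ext u
  rw [D.mem_Uw]
  constructor
  · rintro ⟨a, c, h1, h2, h3⟩
    have := (key a c).mpr h1
    rwa [h2, h3] at this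
  · intro hu
    have h1 : u.1 ∈ J.1 := by rw [← hJ1]; exact ⟨u, hu, rfl⟩
    have h2 : u.2 ∈ P.1 := by rw [← hP1]; exact ⟨u, hu, rfl⟩
    obtain ⟨a, ha⟩ := D.exists_gP h1
    obtain ⟨c, hc⟩ := D.exists_gP h2
    refine ⟨a, c, (key a c).mp ?_, ha, hc⟩
    rw [ha, hc]
    exact hu

/-- fibre equivalence -/
noncomputable def fibE (hJ : J.1 ≤ D.II (D.kP P) L.1) :
    Gen L.1 ≃ {U : UU R // D.Phi U = (P, (L, J))} :=
  Equiv.ofBijective (fun w => ⟨D.Uw' P L J hJ w, D.Phi_Uw' P L J hJ w⟩)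
    ⟨fun w w' h => D.Uw_inj P L J hJ (congrArg Subtype.val h), fun U => by
      obtain ⟨w, hw⟩ := D.Uw_surj P L J hJ U.1 U.2
      exact ⟨w, Subtype.ext hw⟩⟩

lemma fib_empty (hJ : ¬ J.1 ≤ D.II (D.kP P) L.1) :
    IsEmpty {U : UU R // D.Phi U = (P, (L, J))} := by
  refine ⟨fun U => hJ ?_⟩
  have hP : pP U.1 = P := congrArg Prod.fst U.2
  have hL : D.pL U.1 = L := congrArg (fun x => x.2.1) U.2
  have hJ' : pJ U.1 = J := congrArg (fun x => x.2.2) U.2
  have := D.J_le U.1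
  rwa [hP, hL, hJ'] at this

end fibre

end DV

end Pool.Agent.H260TZ
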