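import Pool.Agent.H260TZ.Fib

namespace Pool.Agent.H260TZ

open Submodule

lemma card_ne {G K : Type} [AddCommGroup G] [AddCommGroup K] [Finite G] (φ : G →+ K)
    (hφ : Function.Surjective φ) :
    (Nat.card {g // φ g ≠ 0} : ℝ) = Nat.card G * (1 - 1 / (Nat.card K : ℝ)) := by
  classical
  have : Finite K := Finite.of_surjective φ hφ
  have h1 : Nat.card {g // φ g = 0} + Nat.card {g // ¬ (φ g = 0)} = Nat.card G := by
    rw [← Nat.card_sum]
    exact Nat.card_congr (Equiv.sumCompl (fun g => φ g = 0))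
  have h2 : Nat.card {g // φ g = 0} = Nat.card φ.ker := rfl
  have h3 := AddSubgroup.card_mul_index φ.ker
  rw [AddSubgroup.index_ker, AddMonoidHom.range_eq_top.mpr hφ, AddSubgroup.card_top] at h3
  have hK : (Nat.card K : ℝ) ≠ 0 := by
    have : Nat.card K ≠ 0 := Nat.card_pos.ne'
    exact_mod_cast this
  have h4 : (Nat.card φ.ker : ℝ) * Nat.card K = Nat.card G := by exact_mod_cast h3
  have h5 : (Nat.card φ.ker : ℝ) + Nat.card {g // ¬ (φ g = 0)} = Nat.card G := by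
    rw [← h2]; exact_mod_cast h1
  have h6 : (Nat.card {g // φ g ≠ 0} : ℝ) = Nat.card G - Nat.card φ.ker := by
    rw [← h5]; ring_nf
  rw [h6, ← h4]
  field_simp

namespace DV

variable {R : Type} [CommRing R] [IsDomain R] (D : DV R)

/-- reduction from level `N` to level one -/
noncomputable def down {N : ℕ} (hN : N ≠ 0) : D.Q N →ₗ[R] D.Q 1 :=
  Submodule.liftQ _ (D.red 1) (by
    rw [Submodule.span_le]
    intro x hx
    rw [Set.mem_singleton_iff] at hx
    rw [SetLike.mem_coe, LinearMap.mem_ker, hx, D.red_eq_zero, pow_one]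
    exact dvd_pow_self _ hN)

lemma down_red {N : ℕ} (hN : N ≠ 0) (a : R) : D.down hN (D.red N a) = D.red 1 a :=
  Submodule.liftQ_apply _ _ _

lemma down_surj {N : ℕ} (hN : N ≠ 0) : Function.Surjective (D.down hN) := by
  intro z
  obtain ⟨a, rfl⟩ := D.red_surj 1 z
  exact ⟨D.red N a, D.down_red hN a⟩

lemma gen_iff {N : ℕ} (hN : N ≠ 0) (w : D.Q N × D.Q N) :
    (∀ v, ∃ a b : R, a • w.1 + b • w.2 = v) ↔
      ((D.down hN).toAddMonoidHom.prodMap (D.down hN).toAddMonoidHom) w ≠ 0 := by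
  obtain ⟨a1, h1⟩ := D.red_surj N w.1
  obtain ⟨a2, h2⟩ := D.red_surj N w.2
  have e : ((D.down hN).toAddMonoidHom.prodMap (D.down hN).toAddMonoidHom) w =
      (D.red 1 a1, D.red 1 a2) := by
    show (D.down hN w.1, D.down hN w.2) = _
    rw [← h1, ← h2, D.down_red, D.down_red]
  rw [e]
  constructor
  · intro h h0
    rw [Prod.mk_eq_zero, D.red_eq_zero, D.red_eq_zero, pow_one] at h0
    obtain ⟨a, b, hab⟩ := h (D.red N 1)
    rw [← h1, ← h2, ← map_smul, ← map_smul, ← map_add, D.red_eq] at hab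
    have h3 : D.t ∣ a • a1 + b • a2 - 1 := (dvd_pow_self _ hN).trans hab
    have h4 : D.t ∣ a • a1 + b • a2 := by
      rw [smul_eq_mul, smul_eq_mul]
      exact dvd_add (h0.1.mul_left _) (h0.2.mul_left _)
    exact D.not_dvd_one ((dvd_sub_right h4).mp h3)
  · intro h v
    obtain ⟨c, rfl⟩ := D.red_surj N v
    rw [Ne, Prod.mk_eq_zero, D.red_eq_zero, D.red_eq_zero, pow_one] at h
    by_cases ht : D.t ∣ a1
    · have ht2 : ¬ D.t ∣ a2 := fun h' => h ⟨ht, h'⟩
      obtain ⟨u, hu⟩ := D.not_dvd_iff.mp ht2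
      refine ⟨0, c * (↑u⁻¹ : R), ?_⟩
      rw [zero_smul, zero_add, ← h2, ← map_smul, smul_eq_mul, mul_assoc, ← hu, Units.inv_mul,
        mul_one]
    · obtain ⟨u, hu⟩ := D.not_dvd_iff.mp ht
      refine ⟨c * (↑u⁻¹ : R), 0, ?_⟩
      rw [zero_smul, add_zero, ← h1, ← map_smul, smul_eq_mul, mul_assoc, ← hu, Units.inv_mul,
        mul_one]

lemma card_gen_cyc {N : ℕ} (hN : N ≠ 0) (L : Submodule R (R × R))
    (e : ((R × R) ⧸ L) ≃ₗ[R] D.Q N) :
    (Nat.card (Gen L) : ℝ) = (D.q : ℝ) ^ (2 * N) * (1 - 1 / (D.q : ℝ) ^ 2) := by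
  have h1 : Nat.card (Gen L) = Nat.card {w : D.Q N × D.Q N //
      ((D.down hN).toAddMonoidHom.prodMap (D.down hN).toAddMonoidHom) w ≠ 0} := by
    apply Nat.card_congr
    refine Equiv.subtypeEquiv (e.toEquiv.prodCongr e.toEquiv) ?_
    intro w
    rw [← D.gen_iff hN]
    constructor
    · intro h v
      obtain ⟨a, b, hab⟩ := h (e.symm v)
      refine ⟨a, b, ?_⟩
      show a • e w.1 + b • e w.2 = v
      rw [← map_smul, ← map_smul, ← map_add, hab, LinearEquiv.apply_symm_apply]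
    · intro h v
      obtain ⟨a, b, hab⟩ := h (e v)
      refine ⟨a, b, ?_⟩
      have hab' : a • e w.1 + b • e w.2 = e v := hab
      rw [← map_smul, ← map_smul, ← map_add] at hab'
      exact e.injective hab'
  rw [h1, card_ne _ (Function.Surjective.prodMap (D.down_surj hN) (D.down_surj hN))]
  rw [Nat.card_prod, Nat.card_prod, D.card, D.card]
  push_cast
  ring

lemma card_gen_one (L : Submodule R (R × R)) (h : idx L = 1) : Nat.card (Gen L) = 1 := by
  have h1 : Nat.card ((R × R) ⧸ L) = 1 := h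
  obtain ⟨h2, ⟨x⟩⟩ := Nat.card_eq_one_iff_unique.mp h1
  rw [Nat.card_eq_one_iff_unique]
  refine ⟨⟨fun a b => ?_⟩, ⟨⟨(x, x), fun v => ⟨0, 0, Subsingleton.elim _ _⟩⟩⟩⟩
  apply Subtype.ext
  exact Prod.ext (Subsingleton.elim _ _) (Subsingleton.elim _ _)

section big

variable (L : Submodule R (R × R)) (hL : ∀ v ∈ L, D.t ∣ v.1 ∧ D.t ∣ v.2)

/-- reduction of the quotient -/
noncomputable def rho : ((R × R) ⧸ L) →ₗ[R] (D.Q 1 × D.Q 1) :=
  Submodule.liftQ L ((D.red 1).prodMap (D.red 1)) (by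
    intro v hv
    rw [LinearMap.mem_ker, LinearMap.prodMap_apply, Prod.mk_eq_zero, D.red_eq_zero,
      D.red_eq_zero, pow_one]
    exact hL v hv)

lemma rho_mk (a : R × R) : D.rho L hL (L.mkQ a) = (D.red 1 a.1, D.red 1 a.2) :=
  Submodule.liftQ_apply _ _ _

lemma rho_surj : Function.Surjective (D.rho L hL) := by
  rintro ⟨z1, z2⟩
  obtain ⟨a1, rfl⟩ := D.red_surj 1 z1
  obtain ⟨a2, rfl⟩ := D.red_surj 1 z2
  exact ⟨L.mkQ (a1, a2), D.rho_mk L hL _⟩

lemma dt_aux (a v : R × R) : ((a.1 • (D.red 1).comp (LinearMap.snd R R R)) -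
    (a.2 • (D.red 1).comp (LinearMap.fst R R R))) v = D.red 1 (a.1 * v.2 - a.2 * v.1) := by
  have e1 : D.red 1 (a.1 * v.2) = a.1 • D.red 1 v.2 := (D.red 1).map_smul a.1 v.2
  have e2 : D.red 1 (a.2 * v.1) = a.2 • D.red 1 v.1 := (D.red 1).map_smul a.2 v.1
  rw [map_sub, e1, e2]
  rfl

/-- determinant against a fixed vector -/
noncomputable def dt (a : R × R) : ((R × R) ⧸ L) →ₗ[R] D.Q 1 :=
  Submodule.liftQ L ((a.1 • (D.red 1).comp (LinearMap.snd R R R)) -
    (a.2 • (D.red 1).comp (LinearMap.fst R R R))) (by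
    intro v hv
    rw [LinearMap.mem_ker, D.dt_aux, D.red_eq_zero, pow_one]
    exact dvd_sub ((hL v hv).2.mul_left _) ((hL v hv).1.mul_left _))

lemma dt_mk (a b : R × R) : D.dt L hL a (L.mkQ b) = D.red 1 (a.1 * b.2 - a.2 * b.1) := by
  unfold dt
  rw [Submodule.mkQ_apply, Submodule.liftQ_apply, D.dt_aux]

lemma dt_surj (a : R × R) (ha : ¬ (D.t ∣ a.1 ∧ D.t ∣ a.2)) :
    Function.Surjective (D.dt L hL a) := by
  intro z
  obtain ⟨c, rfl⟩ := D.red_surj 1 z
  by_cases h1 : D.t ∣ a.1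
  · have h2 : ¬ D.t ∣ a.2 := fun h => ha ⟨h1, h⟩
    obtain ⟨u, hu⟩ := D.not_dvd_iff.mp h2
    refine ⟨L.mkQ (-((↑u⁻¹ : R) * c), 0), ?_⟩
    rw [D.dt_mk]
    congr 1
    have := Units.mul_inv u
    rw [hu] at this
    simp only
    linear_combination c * this
  · obtain ⟨u, hu⟩ := D.not_dvd_iff.mp h1
    refine ⟨L.mkQ (0, (↑u⁻¹ : R) * c), ?_⟩
    rw [D.dt_mk]
    congr 1
    have := Units.mul_inv u
    rw [hu] at this
    simp only
    linear_combination c * this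

/-- a section -/
noncomputable def sec (w : (R × R) ⧸ L) : R × R := (Submodule.mkQ_surjective L w).choose

omit [IsDomain R] in
lemma sec_spec (w : (R × R) ⧸ L) : L.mkQ (sec L w) = w :=
  (Submodule.mkQ_surjective L w).choose_spec

lemma gen_big_iff (w : ((R × R) ⧸ L) × ((R × R) ⧸ L)) :
    (∀ v, ∃ a b : R, a • w.1 + b • w.2 = v) ↔
      (D.rho L hL w.1 ≠ 0 ∧ D.dt L hL (sec L w.1) w.2 ≠ 0) := by
  set a := sec L w.1 with ha
  set b := sec L w.2 with hb
  have ea : L.mkQ a = w.1 := sec_spec L w.1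
  have eb : L.mkQ b = w.2 := sec_spec L w.2
  rw [← ea, ← eb, D.rho_mk, D.dt_mk, Ne, Ne, Prod.mk_eq_zero, D.red_eq_zero, D.red_eq_zero,
    D.red_eq_zero, pow_one]
  constructor
  · intro h
    have hdet : ¬ D.t ∣ a.1 * b.2 - a.2 * b.1 := by
      intro hd
      obtain ⟨x, y, h1⟩ := h (L.mkQ (1, 0))
      obtain ⟨x', y', h2⟩ := h (L.mkQ (0, 1))
      rw [← map_smul, ← map_smul, ← map_add, ← sub_eq_zero, ← map_sub, Submodule.mkQ_apply,
        Submodule.Quotient.mk_eq_zero] at h1 h2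
      obtain ⟨p1, p2⟩ := hL _ h1
      obtain ⟨p3, p4⟩ := hL _ h2
      simp only [Prod.fst_sub, Prod.fst_add, Prod.smul_fst, smul_eq_mul, Prod.snd_sub,
        Prod.snd_add, Prod.smul_snd, sub_zero] at p1 p2 p3 p4
      have q1 : D.t ∣ (x * y' - y * x') * (a.1 * b.2 - a.2 * b.1) := hd.mul_left _
      have q2 : D.t ∣ (x * a.1 + y * b.1 - 1) * (x' * a.2 + y' * b.2) := p1.mul_right _
      have q3 : D.t ∣ (x * a.2 + y * b.2) * (x' * a.1 + y' * b.1) := p2.mul_right _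
      have q4 := dvd_sub (dvd_sub (dvd_sub q1 q2) p4) (q3.mul_left (-1))
      apply D.not_dvd_one
      refine q4.trans (dvd_of_eq ?_)
      ring
    refine ⟨?_, hdet⟩
    rintro ⟨h1, h2⟩
    exact hdet (dvd_sub (h1.mul_right _) (h2.mul_right _))
  · rintro ⟨-, hd⟩ v
    obtain ⟨c, rfl⟩ := Submodule.mkQ_surjective L v
    obtain ⟨u, hu⟩ := D.not_dvd_iff.mp hd
    refine ⟨(↑u⁻¹ : R) * (c.1 * b.2 - c.2 * b.1), (↑u⁻¹ : R) * (a.1 * c.2 - a.2 * c.1), ?_⟩
    rw [← map_smul, ← map_smul, ← map_add]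
    congr 1
    have := Units.mul_inv u
    rw [hu] at this
    refine Prod.ext ?_ ?_
    · show (↑u⁻¹ : R) * (c.1 * b.2 - c.2 * b.1) * a.1 +
        (↑u⁻¹ : R) * (a.1 * c.2 - a.2 * c.1) * b.1 = c.1
      linear_combination c.1 * this
    · show (↑u⁻¹ : R) * (c.1 * b.2 - c.2 * b.1) * a.2 +
        (↑u⁻¹ : R) * (a.1 * c.2 - a.2 * c.1) * b.2 = c.2
      linear_combination c.2 * this

include hL in
lemma card_gen_big (h0 : idx L ≠ 0) :
    (Nat.card (Gen L) : ℝ) = (idx L : ℝ) ^ 2 * (1 - 1 / (D.q : ℝ)) * (1 - 1 / (D.q : ℝ) ^ 2) := by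
  classical
  have : Finite ((R × R) ⧸ L) := Nat.finite_of_card_ne_zero h0
  have e : Gen L ≃ Σ w1 : {w1 : (R × R) ⧸ L // (D.rho L hL).toAddMonoidHom w1 ≠ 0},
      {w2 : (R × R) ⧸ L // (D.dt L hL (sec L w1.1)).toAddMonoidHom w2 ≠ 0} :=
    { toFun := fun w => ⟨⟨w.1.1, ((D.gen_big_iff L hL w.1).mp w.2).1⟩,
        ⟨w.1.2, ((D.gen_big_iff L hL w.1).mp w.2).2⟩⟩
      invFun := fun x => ⟨(x.1.1, x.2.1), (D.gen_big_iff L hL _).mpr ⟨x.1.2, x.2.2⟩⟩
      left_inv := fun w => rfl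
      right_inv := fun x => rfl }
  rw [Nat.card_congr e]
  letI : Fintype {w1 : (R × R) ⧸ L // (D.rho L hL).toAddMonoidHom w1 ≠ 0} := Fintype.ofFinite _
  rw [Nat.card_sigma]
  push_cast
  have hin : ∀ w1 : {w1 : (R × R) ⧸ L // (D.rho L hL).toAddMonoidHom w1 ≠ 0},
      (Nat.card {w2 : (R × R) ⧸ L // (D.dt L hL (sec L w1.1)).toAddMonoidHom w2 ≠ 0} : ℝ) =
        (idx L : ℝ) * (1 - 1 / (D.q : ℝ)) := by
    intro w1
    have hw := w1.2
    have ea : L.mkQ (sec L w1.1) = w1.1 := sec_spec L w1.1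
    have hnd : ¬ (D.t ∣ (sec L w1.1).1 ∧ D.t ∣ (sec L w1.1).2) := by
      intro h
      apply hw
      show D.rho L hL w1.1 = 0
      rw [← ea, D.rho_mk, Prod.mk_eq_zero, D.red_eq_zero, D.red_eq_zero]
      exact ⟨(dvd_of_eq (pow_one D.t)).trans h.1, (dvd_of_eq (pow_one D.t)).trans h.2⟩
    rw [card_ne (D.dt L hL (sec L w1.1)).toAddMonoidHom (D.dt_surj L hL _ hnd), D.card, pow_one]
    rfl
  rw [Finset.sum_congr rfl (fun w1 _ => hin w1), Finset.sum_const, Finset.card_univ,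
    ← Nat.card_eq_fintype_card, nsmul_eq_mul,
    card_ne (D.rho L hL).toAddMonoidHom (D.rho_surj L hL), Nat.card_prod, D.card,
    pow_one]
  push_cast
  rw [idx_eq_card]
  ring

end big

/-- number of generating pairs -/
noncomputable def sr (m N : ℕ) : ℝ :=
  if m = 0 then (if N = 0 then 1 else (D.q : ℝ) ^ (2 * N) * (1 - 1 / (D.q : ℝ) ^ 2))
  else (D.q : ℝ) ^ (4 * m + 2 * N) * (1 - 1 / (D.q : ℝ)) * (1 - 1 / (D.q : ℝ) ^ 2)

lemma par_zero (b : Bool) (n : ℕ) (z : D.Q n) : D.par (0, b, ⟨n, z⟩) = D.pr b n z := by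
  unfold par
  have : D.sc 0 = LinearMap.id := by
    unfold sc; rw [pow_zero, one_smul]
  simp only
  rw [this, Submodule.map_id]

lemma card_gen (x : ℕ × (Bool × (Σ n, D.Q n))) :
    (Nat.card (Gen (D.par x)) : ℝ) = D.sr x.1 (ex x.2.1 x.2.2.1) := by
  obtain ⟨m, b, n, z⟩ := x
  unfold sr
  by_cases hm : m = 0
  · subst hm
    simp only [if_true]
    rw [D.par_zero]
    by_cases hN : ex b n = 0
    · rw [if_pos hN]
      have : idx (D.pr b n z) = 1 := by rw [D.idx_pr, hN, pow_zero]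
      exact_mod_cast card_gen_one _ this
    · rw [if_neg hN]
      cases b
      · have e := LinearMap.quotKerEquivOfSurjective _
          (D.lf_surj_right (n + 1) (D.t * D.lift z))
        have := D.card_gen_cyc (N := n + 1) (by omega) (D.pr false n z) e
        rw [this]; rfl
      · have e := LinearMap.quotKerEquivOfSurjective _ (D.lf_surj_left n (D.lift z))
        have hn : n ≠ 0 := by simpa [ex] using hN
        have := D.card_gen_cyc (N := n) hn (D.pr true n z) e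
        rw [this]; rfl
  · rw [if_neg hm]
    have hL : ∀ v ∈ D.par (m, b, ⟨n, z⟩), D.t ∣ v.1 ∧ D.t ∣ v.2 := by
      rintro v ⟨w, -, rfl⟩
      rw [sc_apply]
      exact ⟨(dvd_pow_self _ hm).mul_right _, (dvd_pow_self _ hm).mul_right _⟩
    rw [D.card_gen_big _ hL (D.idx_par_ne _), D.idx_par]
    push_cast
    rw [← pow_mul]
    congr 3
    ring

end DV

end Pool.Agent.H260TZ
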