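import Pool.Agent.H260TZ.Ser2

namespace Pool.Agent.H260TZ

open Submodule Finset

namespace DV

variable {R : Type} [CommRing R] [IsDomain R] (D : DV R)

/-- weight of a primitive lattice -/
noncomputable def pw (x : ℝ) (k : ℕ) (p : Bool × (Σ n, D.Q n)) : ℝ :=
  (D.q : ℝ) ^ (2 * ex p.1 p.2.1) * x ^ (ex p.1 p.2.1) *
    x ^ (2 * ex p.1 p.2.1 - D.cor k p.1 p.2.1 p.2.2)

/-- sum of the weights of the primitive lattices -/
noncomputable def Prim (x : ℝ) (k : ℕ) : ℝ :=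
  D.Sa x k / (1 - (D.q * x) ^ 3) + D.q ^ 2 * x ^ 3 / (1 - (D.q * x) ^ 3)

lemma hsPrim {x : ℝ} (hx : 0 < x) (hx1 : D.q ^ 2 * x < 1) (k : ℕ) :
    HasSum (D.pw x k) (D.Prim x k) := by
  have hq := D.q1
  have hq0 := D.q0
  have h1 : 0 < D.q * x := mul_pos D.q0 hx
  have h2 : (D.q : ℝ) * (D.q * x) < 1 := by
    calc (D.q : ℝ) * (D.q * x) = D.q ^ 2 * x := by ring
      _ < 1 := hx1
  have h3 : (D.q : ℝ) * x < 1 := by nlinarith
  have hgeo : HasSum (fun j : ℕ => ((D.q * x) ^ 3) ^ j) (1 - (D.q * x) ^ 3)⁻¹ :=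
    hasSum_geometric_of_lt_one (by positivity) (pow_lt_one₀ h1.le h3 (by norm_num))
  have hA : HasSum (fun p : (Σ n, D.Q n) => D.pw x k (true, p))
      (D.Sa x k / (1 - (D.q * x) ^ 3)) := by
    have h5 := cauchy (D.hsa hx hx1 k) hgeo
    rw [← div_eq_mul_inv] at h5
    refine hs_sigma (fun p => by unfold pw; positivity) (fun n => ?_) h5
    rw [← D.sumz2]
    exact hasSum_fintype _
  have hB : HasSum (fun p : (Σ n, D.Q n) => D.pw x k (false, p))
      (D.q ^ 2 * x ^ 3 / (1 - (D.q * x) ^ 3)) := by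
    have h5 := hgeo.mul_left (D.q ^ 2 * x ^ 3)
    rw [← div_eq_mul_inv] at h5
    refine hs_sigma (fun p => by unfold pw; positivity) (fun n => ?_) h5
    have h6 := hasSum_fintype (fun z : D.Q n => D.pw x k (false, ⟨n, z⟩))
    have h7 : ∑ z : D.Q n, D.pw x k (false, ⟨n, z⟩) = D.q ^ 2 * x ^ 3 * ((D.q * x) ^ 3) ^ n := by
      unfold pw ex cor
      simp only [Bool.false_eq_true, if_false, Nat.sub_zero, sum_const, card_univ, D.card_Q,
        nsmul_eq_mul]
      push_cast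
      ring
    rw [h7] at h6
    exact h6
  refine hs_prod (fun p => by unfold pw; positivity) (g := fun b => if b then
    (D.Sa x k / (1 - (D.q * x) ^ 3)) else (D.q ^ 2 * x ^ 3 / (1 - (D.q * x) ^ 3))) ?_ ?_
  · intro b
    cases b
    · simpa using hB
    · simpa using hA
  · have := hasSum_fintype (fun b : Bool => if b then
      (D.Sa x k / (1 - (D.q * x) ^ 3)) else (D.q ^ 2 * x ^ 3 / (1 - (D.q * x) ^ 3)))
    rw [Fintype.sum_bool] at this
    simpa [Prim] using this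

/-- `1 - 1/q` -/
noncomputable def Q1 : ℝ := 1 - 1 / (D.q : ℝ)
/-- `1 - 1/q^2` -/
noncomputable def Q2 : ℝ := 1 - 1 / (D.q : ℝ) ^ 2

lemma Q1_pos : 0 < D.Q1 := by
  unfold Q1
  have := D.q1
  rw [sub_pos, div_lt_one (by linarith)]
  exact this

lemma Q2_pos : 0 < D.Q2 := by
  unfold Q2
  have := D.q1
  rw [sub_pos, div_lt_one (by positivity)]
  nlinarith

lemma Q2_le : D.Q2 ≤ 1 := by
  unfold Q2
  have := D.q0
  have h : (0 : ℝ) ≤ 1 / (D.q : ℝ) ^ 2 := by positivity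
  linarith

/-- the term of the series over lattices -/
noncomputable def tm (x : ℝ) (k : ℕ) (p : ℕ × (Bool × (Σ n, D.Q n))) : ℝ :=
  D.sr p.1 (ex p.2.1 p.2.2.1) * x ^ (2 * p.1 + ex p.2.1 p.2.2.1) *
    x ^ (2 * p.1 + k + (2 * ex p.2.1 p.2.2.1 - D.cor k p.2.1 p.2.2.1 p.2.2.2))

lemma sr_nonneg (m N : ℕ) : 0 ≤ D.sr m N := by
  have h1 := D.Q1_pos.le
  have h2 := D.Q2_pos.le
  unfold Q1 at h1
  unfold Q2 at h2
  have h3 := D.q0
  unfold sr
  split_ifs
  · exact zero_le_one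
  · positivity
  · positivity

lemma tm_succ (x : ℝ) (k m : ℕ) (p : Bool × (Σ n, D.Q n)) :
    D.tm x k (m + 1, p) = (x ^ k * (D.Q1 * D.Q2 * ((D.q * x) ^ 4) ^ (m + 1))) * D.pw x k p := by
  unfold tm sr pw Q1 Q2
  rw [if_neg (Nat.succ_ne_zero m)]
  simp only
  ring

lemma ex_zero_iff (p : Bool × (Σ n, D.Q n)) : ex p.1 p.2.1 = 0 ↔ p = (true, ⟨0, 0⟩) := by
  obtain ⟨b, n, z⟩ := p
  unfold ex
  cases b
  · simp
  · simp only [if_true]
    constructor
    · intro h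
      subst h
      have h1 : Nat.card (D.Q 0) = 1 := by rw [D.card 0, pow_zero]
      obtain ⟨h2, -⟩ := Nat.card_eq_one_iff_unique.mp h1
      rw [Subsingleton.elim z 0]
    · intro h
      have := congrArg (fun q => q.2.1) h
      exact this

open Classical in
lemma tm_zero (x : ℝ) (k : ℕ) (p : Bool × (Σ n, D.Q n)) :
    D.tm x k (0, p) = x ^ k * ((if p = (true, ⟨0, 0⟩) then (1 - D.Q2) else 0) +
      D.Q2 * D.pw x k p) := by
  by_cases h : ex p.1 p.2.1 = 0
  · rw [if_pos ((D.ex_zero_iff p).mp h)]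
    unfold tm sr pw
    simp only [h, if_true]
    simp
  · rw [if_neg (fun h' => h ((D.ex_zero_iff p).mpr h'))]
    unfold tm sr pw Q2
    simp only [if_true]
    rw [if_neg h]
    ring

/-- the sum over lattices -/
noncomputable def Hv (x : ℝ) (k : ℕ) : ℝ :=
  x ^ k * ((1 - D.Q2) + (D.Q2 + D.Q1 * D.Q2 * (D.q * x) ^ 4 / (1 - (D.q * x) ^ 4)) * D.Prim x k)

lemma hsH0 {x : ℝ} (hx : 0 < x) (hx1 : D.q ^ 2 * x < 1) (k : ℕ) :
    HasSum (D.tm x k) (D.Hv x k) := by
  classical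
  have hq := D.q1
  have hq0 := D.q0
  have h1 : 0 < D.q * x := mul_pos D.q0 hx
  have h2 : (D.q : ℝ) * (D.q * x) < 1 := by
    calc (D.q : ℝ) * (D.q * x) = D.q ^ 2 * x := by ring
      _ < 1 := hx1
  have h3 : (D.q : ℝ) * x < 1 := by nlinarith
  have hy4 : (D.q * x) ^ 4 < 1 := pow_lt_one₀ h1.le h3 (by norm_num)
  have hP := D.hsPrim hx hx1 k
  have hnn : ∀ p, 0 ≤ D.tm x k p := by
    intro p
    unfold tm
    have := D.sr_nonneg p.1 (ex p.2.1 p.2.2.1)
    positivity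
  have hgeo : HasSum (fun m : ℕ => ((D.q * x) ^ 4) ^ (m + 1))
      ((D.q * x) ^ 4 / (1 - (D.q * x) ^ 4)) := by
    have := (hasSum_geometric_of_lt_one (by positivity) hy4).mul_left ((D.q * x) ^ 4)
    rw [← div_eq_mul_inv] at this
    refine this.congr_fun ?_
    intro m
    rw [pow_succ']
  set G : ℕ → ℝ := fun m => if m = 0 then x ^ k * ((1 - D.Q2) + D.Q2 * D.Prim x k)
    else (x ^ k * (D.Q1 * D.Q2 * ((D.q * x) ^ 4) ^ m)) * D.Prim x k with hG
  refine hs_prod hnn (g := G) ?_ ?_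
  · intro m
    rcases m with _ | m
    · have h5 := ((hasSum_ite_eq ((true, ⟨0, 0⟩) : Bool × (Σ n, D.Q n)) (1 - D.Q2)).add
        (hP.mul_left D.Q2)).mul_left (x ^ k)
      simp only [hG, if_true]
      refine h5.congr_fun ?_
      intro p
      rw [D.tm_zero]
    · have h5 := hP.mul_left (x ^ k * (D.Q1 * D.Q2 * ((D.q * x) ^ 4) ^ (m + 1)))
      simp only [hG, if_neg (Nat.succ_ne_zero m)]
      refine h5.congr_fun ?_
      intro p
      rw [D.tm_succ]
  · have h6 : HasSum (fun m : ℕ => G (m + 1))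
        ((x ^ k * (D.Q1 * D.Q2)) * ((D.q * x) ^ 4 / (1 - (D.q * x) ^ 4)) * D.Prim x k) := by
      have h7 := (hgeo.mul_left (x ^ k * (D.Q1 * D.Q2))).mul_right (D.Prim x k)
      refine h7.congr_fun ?_
      intro m
      simp only [hG, if_neg (Nat.succ_ne_zero m)]
      ring
    have h8 := (hasSum_nat_add_iff (f := G) 1).mp h6
    rw [sum_range_one] at h8
    have h9 : (x ^ k * (D.Q1 * D.Q2)) * ((D.q * x) ^ 4 / (1 - (D.q * x) ^ 4)) * D.Prim x k + G 0 =
        D.Hv x k := by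
      simp only [hG, if_true]
      unfold Hv
      ring
    rw [h9] at h8
    exact h8

/-- index exponent of the colon lattice -/
noncomputable def iI (k : ℕ) (L : Lat R) : Lat R := ⟨D.II k L.1, D.idx_II_ne k L⟩

lemma hsH {x : ℝ} (hx : 0 < x) (hx1 : D.q ^ 2 * x < 1) (k : ℕ) :
    HasSum (fun L : Lat R => (Nat.card (Gen L.1) : ℝ) * x ^ D.wt L * x ^ D.wt (D.iI k L))
      (D.Hv x k) := by
  rw [← D.parE.hasSum_iff]
  refine (D.hsH0 hx hx1 k).congr_fun ?_
  intro p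
  simp only [Function.comp_apply]
  have h1 : (Nat.card (Gen (D.parE p).1) : ℝ) = D.sr p.1 (ex p.2.1 p.2.2.1) := D.card_gen p
  have h2 : D.wt (D.iI k (D.parE p)) =
      2 * p.1 + k + (2 * ex p.2.1 p.2.2.1 - D.cor k p.2.1 p.2.2.1 p.2.2.2) :=
    D.wt_of_idx (D.idx_II k p)
  rw [h1, h2, D.wt_parE]
  rfl

/-- coefficient -/
noncomputable def al (x : ℝ) : ℝ :=
  (1 + (1 - x) * (((D.q * x) ^ 2 + D.gv x) / (1 - D.gv x)) + D.q ^ 2 * x ^ 3) /
    (1 - (D.q * x) ^ 3)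
/-- coefficient -/
noncomputable def be (x : ℝ) : ℝ :=
  (1 - x) * (2 * (D.q * x) ^ 2 / (1 - (D.q * x) ^ 2) -
    ((D.q * x) ^ 2 + D.gv x) / (1 - D.gv x)) / (1 - (D.q * x) ^ 3)
/-- coefficient -/
noncomputable def G1 (x : ℝ) : ℝ := D.Q2 + D.Q1 * D.Q2 * (D.q * x) ^ 4 / (1 - (D.q * x) ^ 4)
/-- coefficient -/
noncomputable def c0 (x : ℝ) : ℝ := (1 - D.Q2) + D.G1 x * D.al x
/-- coefficient -/
noncomputable def c1 (x : ℝ) : ℝ := D.G1 x * D.be x

lemma Hv_eq (x : ℝ) (k : ℕ) : D.Hv x k = D.c0 x * x ^ k + D.c1 x * (x * D.gv x) ^ k := by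
  unfold Hv c0 c1 G1 al be Prim Sa
  rw [mul_pow]
  ring

/-- the local zeta function -/
noncomputable def Wv (x : ℝ) : ℝ :=
  D.Kv x 1 * (D.c0 x * D.Kv x x + D.c1 x * D.Kv x (x * D.gv x))

/-- exponent of the index of an element of `UU` -/
noncomputable def wU (U : UU R) : ℕ := D.wt (pJ U) + (D.wt (D.pL U) + D.wt (pP U))

lemma idx_wU (U : UU R) : idx U.1 = D.q ^ D.wU U := by
  rw [D.idx_UU, D.idx_wt, D.idx_wt, D.idx_wt, ← pow_add, ← pow_add]
  rfl

open Classical in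
theorem hsU {x : ℝ} (hx : 0 < x) (hx1 : D.q ^ 2 * x < 1) :
    HasSum (fun U : UU R => x ^ D.wU U) (D.Wv x) := by
  have hq := D.q1
  have hq0 := D.q0
  have h1 : 0 < D.q * x := mul_pos D.q0 hx
  have h2 : (D.q : ℝ) * (D.q * x) < 1 := by
    calc (D.q : ℝ) * (D.q * x) = D.q ^ 2 * x := by ring
      _ < 1 := hx1
  have h3 : (D.q : ℝ) * x < 1 := by nlinarith
  have hxlt : x < 1 := by nlinarith
  have hgl := D.gv_lt hx hx1
  have hg0 : 0 < D.gv x := by unfold gv; positivity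
  refine hs_fiber D.Phi (fun U => by positivity)
    (G := fun b => if b.2.2.1 ≤ (D.iI (D.kP b.1) b.2.1).1 then
      (Nat.card (Gen b.2.1.1) : ℝ) * x ^ (D.wt b.2.2 + (D.wt b.2.1 + D.wt b.1)) else 0) ?_ ?_
  · rintro ⟨P, L, J⟩
    simp only
    by_cases hJ : J.1 ≤ (D.iI (D.kP P) L).1
    · rw [if_pos hJ]
      have hJ' : J.1 ≤ D.II (D.kP P) L.1 := hJ
      have e := D.fibE P L J hJ'
      haveI : Finite ((R × R) ⧸ L.1) := Nat.finite_of_card_ne_zero L.2
      haveI : Finite (Gen L.1) := inferInstance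
      haveI : Finite {U : UU R // D.Phi U = (P, (L, J))} := Finite.of_equiv _ e
      letI : Fintype {U : UU R // D.Phi U = (P, (L, J))} := Fintype.ofFinite _
      have hc : ∀ U : {U : UU R // D.Phi U = (P, (L, J))},
          x ^ D.wU U.1 = x ^ (D.wt J + (D.wt L + D.wt P)) := by
        intro U
        have hP : pP U.1 = P := congrArg Prod.fst U.2
        have hL : D.pL U.1 = L := congrArg (fun x => x.2.1) U.2
        have hJ' : pJ U.1 = J := congrArg (fun x => x.2.2) U.2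
        unfold wU
        rw [hP, hL, hJ']
      have hs := hasSum_fintype (fun U : {U : UU R // D.Phi U = (P, (L, J))} => x ^ D.wU U.1)
      rw [sum_congr rfl (fun U _ => hc U), sum_const, card_univ, nsmul_eq_mul,
        ← Nat.card_eq_fintype_card, ← Nat.card_congr e] at hs
      exact hs
    · rw [if_neg hJ]
      haveI := D.fib_empty P L J hJ
      exact hasSum_empty
  · have hnn : ∀ b : Lat R × (Lat R × Lat R), 0 ≤ (if b.2.2.1 ≤ (D.iI (D.kP b.1) b.2.1).1 then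
      (Nat.card (Gen b.2.1.1) : ℝ) * x ^ (D.wt b.2.2 + (D.wt b.2.1 + D.wt b.1)) else 0) := by
      intro b
      split_ifs
      · positivity
      · exact le_rfl
    refine hs_prod hnn (g := fun P => x ^ D.wt P * D.Kv x 1 *
      (D.c0 x * x ^ D.kP P + D.c1 x * (x * D.gv x) ^ D.kP P)) ?_ ?_
    · intro P
      refine hs_prod (fun b => hnn (P, b)) (g := fun L => x ^ D.wt P * D.Kv x 1 *
        ((Nat.card (Gen L.1) : ℝ) * x ^ D.wt L * x ^ D.wt (D.iI (D.kP P) L))) ?_ ?_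
      · intro L
        have h5 := (D.hsJ hx h3 (D.iI (D.kP P) L)).mul_left
          ((Nat.card (Gen L.1) : ℝ) * x ^ D.wt L * x ^ D.wt P)
        have e : (Nat.card (Gen L.1) : ℝ) * x ^ D.wt L * x ^ D.wt P *
            (x ^ D.wt (D.iI (D.kP P) L) * D.Kv x 1) = x ^ D.wt P * D.Kv x 1 *
            ((Nat.card (Gen L.1) : ℝ) * x ^ D.wt L * x ^ D.wt (D.iI (D.kP P) L)) := by ring
        rw [e] at h5
        refine h5.congr_fun ?_
        intro J
        simp only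
        split_ifs
        · ring
        · ring
      · have h6 := (D.hsH hx hx1 (D.kP P)).mul_left (x ^ D.wt P * D.Kv x 1)
        rw [D.Hv_eq] at h6
        exact h6
    · have hA := (D.hsK hx h3 hx hxlt.le).mul_left (D.c0 x)
      have hB := (D.hsK hx h3 (mul_pos hx hg0) (by nlinarith)).mul_left (D.c1 x)
      have hC := (hA.add hB).mul_left (D.Kv x 1)
      refine hC.congr_fun ?_
      intro P
      ring

end DV

end Pool.Agent.H260TZ
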