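import Pool.Agent.H260TZ.Defs
import Pool.Agent.H260TZ.Ser3

namespace Pool.Agent.H260TZ

open Submodule Finset

/-- a discrete valuation ring with finite residue field gives the elementary data -/
noncomputable def DV.ofDVR {R : Type} [CommRing R] [IsDomain R] [IsDiscreteValuationRing R]
    (t : R) (ht : Irreducible t) (q : ℕ) (hq : Nat.card (R ⧸ Ideal.span {t}) = q) (h2 : 2 ≤ q) :
    DV R where
  t := t
  q := q
  t_ne := ht.ne_zero
  nu := ht.not_isUnit
  dich := by
    intro a
    by_cases ha : a = 0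
    · right; rw [ha]; exact dvd_zero _
    obtain ⟨n, u, hu⟩ := IsDiscreteValuationRing.eq_unit_mul_pow_irreducible ha ht
    rcases n with _ | n
    · left; rw [hu, pow_zero, mul_one]; exact u.isUnit
    · right; rw [hu]; exact (dvd_pow_self _ (Nat.succ_ne_zero n)).mul_left _
  fac := by
    intro a ha
    obtain ⟨n, u, hu⟩ := IsDiscreteValuationRing.eq_unit_mul_pow_irreducible ha ht
    exact ⟨n, u, by rw [hu, mul_comm]⟩
  idl := fun I hI => IsDiscreteValuationRing.ideal_eq_span_pow_irreducible hI ht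
  card := by
    intro n
    have hP : Ideal.span {t} ≠ ⊥ := by
      rw [Ne, Ideal.span_singleton_eq_bot]; exact ht.ne_zero
    have : (Ideal.span {t}).IsPrime := by
      rw [Ideal.span_singleton_prime ht.ne_zero]; exact ht.prime
    have h := cardQuot_pow_of_prime (P := Ideal.span {t}) hP (i := n)
    rw [Ideal.span_singleton_pow, Submodule.cardQuot_apply, Submodule.cardQuot_apply, hq] at h
    exact h
  two_le := h2

/-- elementary data of the ring of Witt vectors of a finite field -/
noncomputable def DV.witt (p : ℕ) [Fact p.Prime] (n : ℕ) (hn : n ≠ 0) :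
    DV (WittVector p (GaloisField p n)) :=
  DV.ofDVR (p : WittVector p (GaloisField p n)) (WittVector.irreducible p) (p ^ n) (by
    rw [Nat.card_congr (WittVector.quotientPEquiv (p := p) (k := GaloisField p n)).toEquiv,
      GaloisField.card p n hn]) (by
    calc 2 ≤ p := (Fact.out : p.Prime).two_le
      _ = p ^ 1 := (pow_one p).symm
      _ ≤ p ^ n := Nat.pow_le_pow_right (Fact.out : p.Prime).pos (Nat.one_le_iff_ne_zero.mpr hn))

lemma DV.witt_q (p : ℕ) [Fact p.Prime] (n : ℕ) (hn : n ≠ 0) : (DV.witt p n hn).q = p ^ n := rfl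

/-- structure constants of the counterexample -/
def cc : Fin 4 → Fin 4 → Fin 4 → ℤ := fun i j k =>
  if (i = 0 ∧ j = 2 ∧ k = 2) ∨ (i = 1 ∧ j = 3 ∧ k = 3) then 1 else 0

lemma mulR_cc {R : Type} [CommRing R] (x y : Fin 4 → R) :
    mulR cc R x y = ![0, 0, x 0 * y 2, x 1 * y 3] := by
  funext k
  unfold mulR cc
  fin_cases k <;> simp [Fin.sum_univ_four]

/-- coordinates -/
def co (R : Type) [CommRing R] : (Fin 4 → R) ≃ₗ[R] ((R × R) × (R × R)) where
  toFun x := ((x 0, x 1), (x 2, x 3))
  map_add' _ _ := rfl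
  map_smul' _ _ := rfl
  invFun u := ![u.1.1, u.1.2, u.2.1, u.2.2]
  left_inv x := by
    funext k
    fin_cases k <;> rfl
  right_inv u := rfl

lemma co_mul {R : Type} [CommRing R] (x y : Fin 4 → R) :
    co R (mulR cc R x y) = ((0 : R × R), (co R x).1 * (co R y).2) := by
  rw [mulR_cc]
  rfl

lemma idx_map_co {R : Type} [CommRing R] (U : Submodule R (Fin 4 → R)) :
    idx (U.map (co R).toLinearMap) = idx U := by
  rw [idx_map_inj _ (co R).injective, LinearMap.range_eq_top.mpr (co R).surjective, idx_top,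
    mul_one]

/-- transfer of closed submodules of finite index -/
noncomputable def trE (R : Type) [CommRing R] : FinSub cc R ≃ UU R where
  toFun U := ⟨U.1.map (co R).toLinearMap, by
    constructor
    · rintro _ ⟨x, hx, rfl⟩ _ ⟨y, hy, rfl⟩
      have h := U.2.1 x hx y hy
      have h2 := Submodule.mem_map_of_mem (f := (co R).toLinearMap) h
      have h3 : (co R).toLinearMap (mulR cc R x y) = ((0 : R × R), (co R x).1 * (co R y).2) :=
        co_mul x y
      rw [h3] at h2
      exact h2
    · rw [idx_map_co]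
      have := U.2.2
      have h4 : 0 < Nat.card ((Fin 4 → R) ⧸ U.1) := Nat.card_pos
      exact h4.ne'⟩
  invFun V := ⟨V.1.comap (co R).toLinearMap, by
    have hmc : (V.1.comap (co R).toLinearMap).map (co R).toLinearMap = V.1 :=
      Submodule.map_comap_eq_of_surjective (co R).surjective _
    constructor
    · intro x hx y hy
      have h := V.2.1 _ hx _ hy
      have h3 : (co R).toLinearMap (mulR cc R x y) = ((0 : R × R), (co R x).1 * (co R y).2) :=
        co_mul x y
      show (co R).toLinearMap (mulR cc R x y) ∈ V.1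
      rw [h3]
      exact h
    · have h5 : idx (V.1.comap (co R).toLinearMap) ≠ 0 := by
        rw [← idx_map_co, hmc]; exact V.2.2
      exact Nat.finite_of_card_ne_zero h5⟩
  left_inv U := Subtype.ext (Submodule.comap_map_eq_of_injective (co R).injective _)
  right_inv V := Subtype.ext (Submodule.map_comap_eq_of_surjective (co R).surjective _)

lemma idx_trE {R : Type} [CommRing R] (U : FinSub cc R) : idx (trE R U).1 = idx U.1 :=
  idx_map_co U.1

theorem hsFin {R : Type} [CommRing R] [IsDomain R] (D : DV R) {σ : ℝ} (hσ : 2 < σ) :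
    HasSum (fun U : FinSub cc R => (Nat.card ((Fin 4 → R) ⧸ U.1) : ℝ) ^ (-σ))
      (D.Wv ((D.q : ℝ) ^ (-σ))) := by
  have hq := D.q1
  have hq0 := D.q0
  have hx : 0 < (D.q : ℝ) ^ (-σ) := Real.rpow_pos_of_pos hq0 _
  have hx1 : (D.q : ℝ) ^ 2 * (D.q : ℝ) ^ (-σ) < 1 := by
    rw [← Real.rpow_natCast, ← Real.rpow_add hq0]
    apply Real.rpow_lt_one_of_one_lt_of_neg hq
    push_cast
    linarith
  have h := D.hsU hx hx1
  rw [← (trE R).hasSum_iff] at h
  refine h.congr_fun ?_
  intro U
  simp only [Function.comp_apply]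
  have h1 : Nat.card ((Fin 4 → R) ⧸ U.1) = D.q ^ D.wU (trE R U) := by
    rw [← D.idx_wU, idx_trE]
    rfl
  rw [h1]
  push_cast
  rw [← Real.rpow_natCast, ← Real.rpow_mul hq0.le, mul_comm, Real.rpow_mul hq0.le,
    Real.rpow_natCast]

end Pool.Agent.H260TZ
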