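import Pool.Agent.H260TZ.Basic

namespace Pool.Agent.H260TZ

open Submodule

namespace DV

variable {R : Type} [CommRing R] [IsDomain R] (D : DV R)

/-- the residue ring modulo the `n`-th power of the uniformizer -/
abbrev Q (n : ℕ) : Type := R ⧸ Ideal.span {D.t ^ n}

lemma q_pos : 0 < D.q := by have := D.two_le; omega

lemma tpow_ne (n : ℕ) : D.t ^ n ≠ 0 := pow_ne_zero _ D.t_ne

instance finQ (n : ℕ) : Finite (D.Q n) := by
  apply Nat.finite_of_card_ne_zero
  rw [D.card n]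
  exact pow_ne_zero _ D.q_pos.ne'

noncomputable instance ftQ (n : ℕ) : Fintype (D.Q n) := Fintype.ofFinite _

lemma card_Q (n : ℕ) : Fintype.card (D.Q n) = D.q ^ n := by
  rw [← Nat.card_eq_fintype_card]
  exact D.card n

/-- reduction as a linear map -/
noncomputable def red (n : ℕ) : R →ₗ[R] D.Q n := Submodule.mkQ (Ideal.span {D.t ^ n})

lemma red_eq_zero {n : ℕ} {a : R} : D.red n a = 0 ↔ D.t ^ n ∣ a := by
  unfold red
  rw [Submodule.mkQ_apply, Submodule.Quotient.mk_eq_zero, Ideal.mem_span_singleton]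

lemma red_surj (n : ℕ) : Function.Surjective (D.red n) := Submodule.mkQ_surjective _

lemma red_eq {n : ℕ} {a b : R} : D.red n a = D.red n b ↔ D.t ^ n ∣ a - b := by
  rw [← sub_eq_zero, ← map_sub, D.red_eq_zero]

/-- a chosen lift -/
noncomputable def lift {n : ℕ} (z : D.Q n) : R := (D.red_surj n z).choose

lemma red_lift {n : ℕ} (z : D.Q n) : D.red n (D.lift z) = z := (D.red_surj n z).choose_spec

lemma lift_red {n : ℕ} (a : R) : D.t ^ n ∣ D.lift (D.red n a) - a := by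
  rw [← D.red_eq, D.red_lift]

lemma not_unit_of_dvd {a : R} (h : D.t ∣ a) : ¬ IsUnit a := fun ha =>
  D.nu (isUnit_of_dvd_unit h ha)

lemma not_dvd_iff {a : R} : ¬ D.t ∣ a ↔ IsUnit a := by
  constructor
  · intro h
    exact (D.dich a).resolve_right h
  · intro h h2
    exact D.not_unit_of_dvd h2 h

lemma not_dvd_one : ¬ D.t ∣ 1 := D.not_dvd_iff.mpr isUnit_one

lemma pow_not_dvd_unit {n : ℕ} (hn : n ≠ 0) {a : R} (ha : IsUnit a) : ¬ D.t ^ n ∣ a := fun h =>
  D.nu (isUnit_of_dvd_unit ((dvd_pow_self _ hn).trans h) ha)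

/-- multiplication by a power of `t` on `R × R` -/
noncomputable def sc (m : ℕ) : (R × R) →ₗ[R] (R × R) := (D.t ^ m) • LinearMap.id

lemma sc_apply (m : ℕ) (v : R × R) : D.sc m v = (D.t ^ m * v.1, D.t ^ m * v.2) := rfl

lemma sc_inj (m : ℕ) : Function.Injective (D.sc m) := by
  intro v w h
  rw [sc_apply, sc_apply, Prod.mk.injEq] at h
  exact Prod.ext (mul_left_cancel₀ (D.tpow_ne m) h.1) (mul_left_cancel₀ (D.tpow_ne m) h.2)

/-- kernel of `(x, y) ↦ c₁ x + c₂ y` modulo `t^n` -/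
noncomputable def K (n : ℕ) (c₁ c₂ : R) : Submodule R (R × R) :=
  LinearMap.ker ((c₁ • D.red n).coprod (c₂ • D.red n))

lemma mem_K {n : ℕ} {c₁ c₂ : R} {v : R × R} : v ∈ D.K n c₁ c₂ ↔ D.t ^ n ∣ c₁ * v.1 + c₂ * v.2 := by
  unfold K
  rw [LinearMap.mem_ker, LinearMap.coprod_apply, ← D.red_eq_zero, map_add]
  simp only [LinearMap.smul_apply]
  rw [← map_smul, ← map_smul, smul_eq_mul, smul_eq_mul]

/-- the linear form mod `t^n` -/
noncomputable def lf (n : ℕ) (c₁ c₂ : R) : (R × R) →ₗ[R] D.Q n :=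
  (c₁ • D.red n).coprod (c₂ • D.red n)

lemma lf_apply (n : ℕ) (c₁ c₂ : R) (v : R × R) :
    D.lf n c₁ c₂ v = D.red n (c₁ * v.1 + c₂ * v.2) := by
  unfold lf
  rw [LinearMap.coprod_apply, map_add]
  simp only [LinearMap.smul_apply]
  rw [← map_smul, ← map_smul, smul_eq_mul, smul_eq_mul]

lemma lf_surj_left (n : ℕ) (c₂ : R) : Function.Surjective (D.lf n 1 c₂) := by
  intro z
  obtain ⟨a, ha⟩ := D.red_surj n z
  exact ⟨(a, 0), by rw [lf_apply]; simpa using ha⟩

lemma lf_surj_right (n : ℕ) (c₁ : R) : Function.Surjective (D.lf n c₁ 1) := by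
  intro z
  obtain ⟨a, ha⟩ := D.red_surj n z
  exact ⟨(0, a), by rw [lf_apply]; simpa using ha⟩

lemma idx_K_left (n : ℕ) (c₂ : R) : idx (D.K n 1 c₂) = D.q ^ n := by
  have := idx_ker (D.lf n 1 c₂) (D.lf_surj_left n c₂)
  rw [D.card n] at this
  exact this

lemma idx_K_right (n : ℕ) (c₁ : R) : idx (D.K n c₁ 1) = D.q ^ n := by
  have := idx_ker (D.lf n c₁ 1) (D.lf_surj_right n c₁)
  rw [D.card n] at this
  exact this

lemma idx_span (n : ℕ) : idx (Ideal.span {D.t ^ n}) = D.q ^ n := D.card n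

lemma idl_of_idx {I : Ideal R} (h : idx I ≠ 0) : ∃ n : ℕ, I = Ideal.span {D.t ^ n} := by
  apply D.idl
  rintro rfl
  obtain ⟨n, hn⟩ : ∃ n : ℕ, idx (⊥ : Ideal R) < D.q ^ n :=
    ⟨_, Nat.lt_pow_self (by have := D.two_le; omega)⟩
  have h1 : idx (Ideal.span {D.t ^ n}) ∣ idx (⊥ : Ideal R) :=
    AddSubgroup.index_dvd_of_le (fun x hx => by
      have : x = 0 := by simpa using hx
      rw [this]; exact AddSubgroup.zero_mem _)
  rw [D.idx_span] at h1
  have := Nat.le_of_dvd (Nat.pos_of_ne_zero h) h1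
  omega

lemma range_sc_mem {m : ℕ} {v : R × R} :
    v ∈ LinearMap.range (D.sc m) ↔ D.t ^ m ∣ v.1 ∧ D.t ^ m ∣ v.2 := by
  constructor
  · rintro ⟨w, rfl⟩
    exact ⟨⟨w.1, rfl⟩, ⟨w.2, rfl⟩⟩
  · rintro ⟨⟨a, ha⟩, ⟨b, hb⟩⟩
    exact ⟨(a, b), by rw [sc_apply]; exact Prod.ext ha.symm hb.symm⟩

lemma idx_range_sc (m : ℕ) : idx (LinearMap.range (D.sc m)) = D.q ^ (2 * m) := by
  have hs : Function.Surjective ((D.red m).prodMap (D.red m)) :=
    Function.Surjective.prodMap (D.red_surj m) (D.red_surj m)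
  have h := idx_ker _ hs
  rw [Nat.card_prod, D.card m] at h
  rw [two_mul, pow_add, ← h]
  congr 1
  ext v
  rw [D.range_sc_mem, LinearMap.mem_ker, LinearMap.prodMap_apply, Prod.mk_eq_zero,
    D.red_eq_zero, D.red_eq_zero]

lemma idx_map_sc (m : ℕ) (N : Submodule R (R × R)) :
    idx (N.map (D.sc m)) = idx N * D.q ^ (2 * m) := by
  rw [idx_map_inj _ (D.sc_inj m), D.idx_range_sc]

/-- primitive lattices of the two kinds -/
noncomputable def pr (b : Bool) (n : ℕ) (z : D.Q n) : Submodule R (R × R) :=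
  if b then D.K n 1 (D.lift z) else D.K (n + 1) (D.t * D.lift z) 1

/-- all lattices -/
noncomputable def par (x : ℕ × (Bool × (Σ n, D.Q n))) : Submodule R (R × R) :=
  (D.pr x.2.1 x.2.2.1 x.2.2.2).map (D.sc x.1)

/-- exponent of the index of primitive lattices -/
def ex (b : Bool) (n : ℕ) : ℕ := if b then n else n + 1

lemma idx_pr (b : Bool) (n : ℕ) (z : D.Q n) : idx (D.pr b n z) = D.q ^ (ex b n) := by
  unfold pr ex
  cases b
  · simp only [Bool.false_eq_true, if_false]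
    exact D.idx_K_right _ _
  · simp only [if_true]
    exact D.idx_K_left _ _

lemma idx_par (x : ℕ × (Bool × (Σ n, D.Q n))) :
    idx (D.par x) = D.q ^ (2 * x.1 + ex x.2.1 x.2.2.1) := by
  unfold par
  rw [D.idx_map_sc, D.idx_pr, ← pow_add, add_comm]

lemma pr_prim (b : Bool) (n : ℕ) (z : D.Q n) :
    ∃ v ∈ D.pr b n z, ¬ (D.t ∣ v.1 ∧ D.t ∣ v.2) := by
  unfold pr
  cases b
  · simp only [Bool.false_eq_true, if_false]
    refine ⟨(1, -(D.t * D.lift z)), ?_, fun h => D.not_dvd_one h.1⟩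
    rw [D.mem_K]; simp
  · simp only [if_true]
    refine ⟨(-(D.lift z), 1), ?_, fun h => D.not_dvd_one h.2⟩
    rw [D.mem_K]; simp

lemma pr_inj_type {n n' : ℕ} {z : D.Q n} {z' : D.Q n'} : D.pr true n z ≠ D.pr false n' z' := by
  intro h
  have h1 : (-(D.lift z), (1 : R)) ∈ D.pr true n z := by
    unfold pr; simp only [if_true]; rw [D.mem_K]; simp
  rw [h] at h1
  unfold pr at h1
  simp only [Bool.false_eq_true, if_false] at h1
  rw [D.mem_K] at h1
  have h2 : D.t ∣ D.t * D.lift z' * (-(D.lift z)) + 1 * 1 := (dvd_pow_self _ (by omega)).trans h1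
  have h3 : D.t ∣ D.t * D.lift z' * (-(D.lift z)) := ⟨D.lift z' * (-(D.lift z)), by ring⟩
  have h4 := (dvd_add_right h3).mp h2
  rw [one_mul] at h4
  exact D.not_dvd_one h4

lemma pr_inj_z {b : Bool} {n : ℕ} {z z' : D.Q n} (h : D.pr b n z = D.pr b n z') : z = z' := by
  cases b
  · have h1 : ((1 : R), -(D.t * D.lift z)) ∈ D.pr false n z := by
      unfold pr; simp only [Bool.false_eq_true, if_false]; rw [D.mem_K]; simp
    rw [h] at h1
    unfold pr at h1
    simp only [Bool.false_eq_true, if_false] at h1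
    rw [D.mem_K] at h1
    have h2 : D.t * D.lift z' * 1 + 1 * -(D.t * D.lift z) = D.t * (D.lift z' - D.lift z) := by ring
    simp only at h1
    rw [h2, pow_succ', mul_dvd_mul_iff_left D.t_ne, ← D.red_eq, D.red_lift, D.red_lift] at h1
    exact h1.symm
  · have h1 : (-(D.lift z), (1 : R)) ∈ D.pr true n z := by
      unfold pr; simp only [if_true]; rw [D.mem_K]; simp
    rw [h] at h1
    unfold pr at h1
    simp only [if_true] at h1
    rw [D.mem_K] at h1
    have h2 : 1 * -(D.lift z) + D.lift z' * 1 = D.lift z' - D.lift z := by ring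
    simp only at h1
    rw [h2, ← D.red_eq, D.red_lift, D.red_lift] at h1
    exact h1.symm

lemma ex_inj {b : Bool} {n n' : ℕ} (h : ex b n = ex b n') : n = n' := by
  unfold ex at h
  cases b
  · simpa using h
  · simpa using h

lemma map_sc_le {m m' : ℕ} {C C' : Submodule R (R × R)} (hC : ∃ v ∈ C, ¬ (D.t ∣ v.1 ∧ D.t ∣ v.2))
    (h : C.map (D.sc m) = C'.map (D.sc m')) : m' ≤ m := by
  by_contra hlt
  push Not at hlt
  obtain ⟨v, hv, hnd⟩ := hC
  have h1 : D.sc m v ∈ C'.map (D.sc m') := by rw [← h]; exact Submodule.mem_map_of_mem hv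
  obtain ⟨w, hw, hwv⟩ := h1
  obtain ⟨j, rfl⟩ : ∃ j, m' = m + (j + 1) := ⟨m' - m - 1, by omega⟩
  have h2 : D.sc m (D.sc (j + 1) w) = D.sc m v := by
    rw [← hwv, sc_apply, sc_apply, sc_apply]
    simp only [Prod.mk.injEq]
    constructor <;> ring
  have h3 := D.sc_inj m h2
  apply hnd
  rw [← h3, sc_apply]
  exact ⟨⟨D.t ^ j * w.1, by ring⟩, ⟨D.t ^ j * w.2, by ring⟩⟩

lemma par_inj : Function.Injective D.par := by
  rintro ⟨m, b, n, z⟩ ⟨m', b', n', z'⟩ h
  have hm : m = m' := by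
    apply le_antisymm
    · exact D.map_sc_le (D.pr_prim b' n' z') h.symm
    · exact D.map_sc_le (D.pr_prim b n z) h
  subst hm
  have h1 : D.pr b n z = D.pr b' n' z' :=
    Submodule.map_injective_of_injective (D.sc_inj m) h
  have hb : b = b' := by
    cases b <;> cases b'
    · rfl
    · exact absurd h1.symm D.pr_inj_type
    · exact absurd h1 D.pr_inj_type
    · rfl
  subst hb
  have hn : n = n' := by
    have h2 : idx (D.pr b n z) = idx (D.pr b n' z') := by rw [h1]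
    rw [D.idx_pr, D.idx_pr] at h2
    exact ex_inj (Nat.pow_right_injective D.two_le h2)
  subst hn
  rw [D.pr_inj_z h1]

lemma exists_prim (k : ℕ) : ∀ N : Submodule R (R × R), idx N = k → idx N ≠ 0 →
    ∃ (m : ℕ) (C : Submodule R (R × R)), N = C.map (D.sc m) ∧ idx C ≠ 0 ∧
      ∃ v ∈ C, ¬ (D.t ∣ v.1 ∧ D.t ∣ v.2) := by
  induction k using Nat.strong_induction_on with
  | _ k ih =>
    intro N hk h0
    by_cases hp : ∃ v ∈ N, ¬ (D.t ∣ v.1 ∧ D.t ∣ v.2)
    · refine ⟨0, N, ?_, h0, hp⟩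
      have : D.sc 0 = LinearMap.id := by
        unfold sc; rw [pow_zero, one_smul]
      rw [this, Submodule.map_id]
    · push Not at hp
      have hle : N ≤ LinearMap.range (D.sc 1) := by
        intro v hv
        rw [D.range_sc_mem, pow_one]
        exact hp v hv
      set N1 := N.comap (D.sc 1) with hN1
      have hN : N = N1.map (D.sc 1) := (Submodule.map_comap_eq_of_le hle).symm
      have hidx : idx N = idx N1 * D.q ^ 2 := by
        conv_lhs => rw [hN]
        rw [D.idx_map_sc]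
      have hN10 : idx N1 ≠ 0 := by
        intro h; rw [hidx, h, zero_mul] at h0; exact h0 rfl
      have hlt : idx N1 < k := by
        rw [← hk, hidx]
        have h1 : 0 < idx N1 := Nat.pos_of_ne_zero hN10
        have h2 : 1 < D.q ^ 2 := Nat.one_lt_pow (by norm_num) (by have := D.two_le; omega)
        exact lt_mul_of_one_lt_right h1 h2
      obtain ⟨m, C, hC, hC0, hCp⟩ := ih _ hlt N1 rfl hN10
      refine ⟨m + 1, C, ?_, hC0, hCp⟩
      rw [hN, hC, ← Submodule.map_comp]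
      congr 1
      ext <;> simp [sc_apply, pow_succ', LinearMap.comp_apply]

lemma prim_eq (C : Submodule R (R × R)) (h0 : idx C ≠ 0)
    (hp : ∃ v ∈ C, ¬ (D.t ∣ v.1 ∧ D.t ∣ v.2)) :
    ∃ (b : Bool) (n : ℕ) (z : D.Q n), C = D.pr b n z := by
  by_cases hA : ∃ v ∈ C, IsUnit v.2
  · obtain ⟨v, hv, hu⟩ := hA
    obtain ⟨ζ, hζ⟩ : ∃ ζ : R, (ζ, (1 : R)) ∈ C := by
      obtain ⟨u, hu⟩ := hu
      refine ⟨(↑u⁻¹ : R) * v.1, ?_⟩
      have := C.smul_mem (↑u⁻¹ : R) hv
      have h2 : (↑u⁻¹ : R) • v = ((↑u⁻¹ : R) * v.1, 1) := by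
        refine Prod.ext rfl ?_
        show (↑u⁻¹ : R) * v.2 = 1
        rw [← hu, Units.inv_mul]
      rwa [h2] at this
    have hI0 : idx (C.comap (LinearMap.inl R R R)) ≠ 0 := by
      intro h; rw [idx_snd, h, mul_zero] at h0; exact h0 rfl
    obtain ⟨n, hn⟩ := D.idl_of_idx hI0
    refine ⟨true, n, D.red n (-ζ), ?_⟩
    unfold pr
    simp only [if_true]
    ext w
    rw [D.mem_K]
    have e1 : w = (w.1 - ζ * w.2, 0) + w.2 • (ζ, (1 : R)) := by
      refine Prod.ext ?_ ?_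
      · show w.1 = w.1 - ζ * w.2 + w.2 * ζ
        ring
      · show w.2 = 0 + w.2 * 1
        ring
    have e2 : w ∈ C ↔ (w.1 - ζ * w.2, (0 : R)) ∈ C := by
      conv_lhs => rw [e1]
      exact Submodule.add_mem_iff_left _ (C.smul_mem _ hζ)
    have e3 : (w.1 - ζ * w.2, (0 : R)) ∈ C ↔ D.t ^ n ∣ w.1 - ζ * w.2 := by
      rw [← Ideal.mem_span_singleton, ← hn]
      rfl
    rw [e2, e3]
    have e4 := D.lift_red (n := n) (-ζ)
    have e5 : 1 * w.1 + D.lift (D.red n (-ζ)) * w.2 =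
        (w.1 - ζ * w.2) + (D.lift (D.red n (-ζ)) - -ζ) * w.2 := by ring
    rw [e5]
    exact (dvd_add_left (e4.mul_right _)).symm
  · push Not at hA
    obtain ⟨v, hv, hnd⟩ := hp
    have hv2 : D.t ∣ v.2 := by
      by_contra h; exact hA v hv (D.not_dvd_iff.mp h)
    have hv1 : IsUnit v.1 := by
      rw [← D.not_dvd_iff]; intro h; exact hnd ⟨h, hv2⟩
    obtain ⟨ζ, hζ⟩ : ∃ ζ : R, ((1 : R), ζ) ∈ C := by
      obtain ⟨u, hu⟩ := hv1
      refine ⟨(↑u⁻¹ : R) * v.2, ?_⟩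
      have := C.smul_mem (↑u⁻¹ : R) hv
      have h2 : (↑u⁻¹ : R) • v = ((1 : R), (↑u⁻¹ : R) * v.2) := by
        refine Prod.ext ?_ rfl
        show (↑u⁻¹ : R) * v.1 = 1
        rw [← hu, Units.inv_mul]
      rwa [h2] at this
    have hζt : D.t ∣ ζ := by
      by_contra h; exact hA _ hζ (D.not_dvd_iff.mp h)
    obtain ⟨ξ, rfl⟩ := hζt
    have hI0 : idx (C.comap (LinearMap.inr R R R)) ≠ 0 := by
      intro h; rw [idx_fst, h, mul_zero] at h0; exact h0 rfl
    obtain ⟨k, hk⟩ := D.idl_of_idx hI0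
    have hk0 : k ≠ 0 := by
      rintro rfl
      rw [pow_zero, Ideal.span_singleton_one] at hk
      have : (1 : R) ∈ C.comap (LinearMap.inr R R R) := by rw [hk]; trivial
      exact hA _ this isUnit_one
    obtain ⟨n, rfl⟩ : ∃ n, k = n + 1 := ⟨k - 1, by omega⟩
    refine ⟨false, n, D.red n (-ξ), ?_⟩
    unfold pr
    simp only [Bool.false_eq_true, if_false]
    ext w
    rw [D.mem_K]
    have e1 : w = (0, w.2 - D.t * ξ * w.1) + w.1 • ((1 : R), D.t * ξ) := by
      refine Prod.ext ?_ ?_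
      · show w.1 = 0 + w.1 * 1
        ring
      · show w.2 = w.2 - D.t * ξ * w.1 + w.1 * (D.t * ξ)
        ring
    have e2 : w ∈ C ↔ ((0 : R), w.2 - D.t * ξ * w.1) ∈ C := by
      conv_lhs => rw [e1]
      exact Submodule.add_mem_iff_left _ (C.smul_mem _ hζ)
    have e3 : ((0 : R), w.2 - D.t * ξ * w.1) ∈ C ↔ D.t ^ (n + 1) ∣ w.2 - D.t * ξ * w.1 := by
      rw [← Ideal.mem_span_singleton, ← hk]
      rfl
    rw [e2, e3]
    have e4 := D.lift_red (n := n) (-ξ)
    have e5 : D.t * D.lift (D.red n (-ξ)) * w.1 + 1 * w.2 =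
        (w.2 - D.t * ξ * w.1) + (D.t * (D.lift (D.red n (-ξ)) - -ξ)) * w.1 := by ring
    rw [e5]
    refine (dvd_add_left (Dvd.dvd.mul_right ?_ _)).symm
    rw [pow_succ']
    exact mul_dvd_mul_left _ e4

lemma par_surj (N : Submodule R (R × R)) (h0 : idx N ≠ 0) : ∃ x, D.par x = N := by
  obtain ⟨m, C, hC, hC0, hCp⟩ := D.exists_prim _ N rfl h0
  obtain ⟨b, n, z, rfl⟩ := D.prim_eq C hC0 hCp
  exact ⟨(m, b, ⟨n, z⟩), hC.symm⟩

end DV

/-- lattices in `R × R` -/
abbrev Lat (R : Type) [CommRing R] : Type := {N : Submodule R (R × R) // idx N ≠ 0}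

namespace DV

variable {R : Type} [CommRing R] [IsDomain R] (D : DV R)

lemma idx_par_ne (x : ℕ × (Bool × (Σ n, D.Q n))) : idx (D.par x) ≠ 0 := by
  rw [D.idx_par]; exact pow_ne_zero _ D.q_pos.ne'

/-- the classification of lattices -/
noncomputable def parE : (ℕ × (Bool × (Σ n, D.Q n))) ≃ Lat R :=
  Equiv.ofBijective (fun x => ⟨D.par x, D.idx_par_ne x⟩) ⟨fun x y h => D.par_inj (by
    simpa using h), fun N => by
      obtain ⟨x, hx⟩ := D.par_surj N.1 N.2
      exact ⟨x, Subtype.ext hx⟩⟩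

lemma parE_val (x : ℕ × (Bool × (Σ n, D.Q n))) : (D.parE x).1 = D.par x := rfl

end DV

end Pool.Agent.H260TZ
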