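import Pool.Agent.H260TZ.Rat

namespace Pool.Agent.H260TZ

open Polynomial Filter Topology

/-- normalised `1 - q^c` -/
noncomputable def uu {K : Type} [Field K] (q : K) (c : ℤ) : K := (1 - q ^ c) / (1 - q⁻¹)

lemma uu_spec {K : Type} [Field K] {q : K} (h1 : q ≠ 1) (c : ℤ) :
    1 - q ^ c = (1 - q⁻¹) * uu q c := by
  unfold uu
  have : 1 - q⁻¹ ≠ 0 := by
    rw [sub_ne_zero]
    intro h
    exact h1 (by rw [← inv_inv q, ← h, inv_one])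
  rw [mul_div_assoc', mul_comm, mul_div_assoc, div_self this, mul_one]

lemma tend_uu {K : Type} [NontriviallyNormedField K] (c : ℤ) :
    Tendsto (fun q : K => uu q c) (𝓝[≠] 1) (𝓝 (-(c : K))) := by
  have h1 : HasDerivAt (fun x : K => x ^ c) ((c : K) * 1 ^ (c - 1)) 1 :=
    hasDerivAt_zpow c 1 (Or.inl one_ne_zero)
  have h2 : HasDerivAt (fun x : K => x ^ (-1 : ℤ)) (((-1 : ℤ) : K) * 1 ^ ((-1 : ℤ) - 1)) 1 :=
    hasDerivAt_zpow (-1) 1 (Or.inl one_ne_zero)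
  rw [one_zpow, mul_one] at h1 h2
  rw [hasDerivAt_iff_tendsto_slope] at h1 h2
  have h3 := h1.div h2 (by push_cast; exact neg_ne_zero.mpr one_ne_zero)
  have e : (c : K) / ((-1 : ℤ) : K) = -(c : K) := by push_cast; rw [div_neg, div_one]
  rw [e] at h3
  refine h3.congr' ?_
  filter_upwards [self_mem_nhdsWithin] with q hq
  have hq1 : q - 1 ≠ 0 := sub_ne_zero.mpr hq
  simp only [Pi.div_apply, slope_def_field, one_zpow, zpow_neg_one, inv_one]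
  unfold uu
  rw [div_div_div_cancel_right₀ hq1]
  rw [← neg_sub (q ^ c) 1, ← neg_sub (q⁻¹) 1, neg_div_neg_eq]

lemma tend_pow {K : Type} [NontriviallyNormedField K] (c : ℤ) :
    Tendsto (fun q : K => q ^ c) (𝓝[≠] 1) (𝓝 1) := by
  have h1 : HasDerivAt (fun x : K => x ^ c) ((c : K) * 1 ^ (c - 1)) 1 :=
    hasDerivAt_zpow c 1 (Or.inl one_ne_zero)
  have h2 := h1.continuousAt.tendsto
  simp only [one_zpow] at h2
  exact h2.mono_left nhdsWithin_le_nhds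

/-- normalised numerator -/
noncomputable def MM {K : Type} [Field K] (q : K) (s : ℤ) : K :=
  (q ^ (-2 : ℤ)) * uu q (-2 * s) * uu q (3 * (1 - s)) * uu q (2 * (1 - s)) * uu q (6 * (1 - s)) *
      uu q (4 * (1 - s)) +
    ((1 + q ^ (-1 : ℤ)) * uu q (4 * (1 - s)) + (1 + q ^ (-1 : ℤ)) * q ^ (4 * (1 - s))) *
      ((1 + q ^ (3 * (1 - s) - 1)) * uu q (-2 * s) * uu q (2 * (1 - s)) * uu q (6 * (1 - s)) +
        uu q (-s) * ((q ^ (4 * (1 - s) - 1) + q ^ (6 * (1 - s))) * uu q (2 * (1 - s)) +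
          2 * q ^ (2 * (1 - s)) * uu q (6 * (1 - s) - 1) * uu q (1 - 2 * s)))

/-- normalised denominator -/
noncomputable def EE {K : Type} [Field K] (q : K) (s : ℤ) : K :=
  uu q (-s) ^ 3 * uu q (1 - s) * uu q (1 - 2 * s) * uu q (3 * (1 - s)) * uu q (2 * (1 - s)) *
    uu q (6 * (1 - s)) * uu q (4 * (1 - s))

/-- the value of the normalised local zeta function -/
noncomputable def Zf {K : Type} [Field K] (q : K) (s : ℤ) : K :=
  (1 - q⁻¹) ^ 4 * (N0 q (q ^ (-s)) / Q0 q (q ^ (-s)))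

lemma Q0_eq {K : Type} [Field K] {q : K} (h0 : q ≠ 0) (s : ℤ) :
    Q0 q (q ^ (-s)) = (1 - q ^ (-s)) ^ 3 * (1 - q ^ (1 - s)) * (1 - q ^ (1 - 2 * s)) *
      (1 - q ^ (3 * (1 - s))) * (1 - q ^ (2 * (1 - s))) * (1 - q ^ (6 * (1 - s))) *
      (1 - q ^ (4 * (1 - s))) := by
  have a1 : q * q ^ (-s) = q ^ (1 - s) := by
    rw [show (1 - s) = 1 + -s by ring, zpow_add₀ h0, zpow_one]
  have a2 : q * (q ^ (-s)) ^ 2 = q ^ (1 - 2 * s) := by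
    rw [show (1 - 2 * s) = 1 + (-s) * 2 by ring, zpow_add₀ h0, zpow_one, zpow_mul, zpow_ofNat]
  have a3 : ∀ j : ℕ, (q ^ (1 - s)) ^ j = q ^ ((j : ℤ) * (1 - s)) := by
    intro j
    rw [mul_comm, zpow_mul, zpow_natCast]
  unfold Q0
  rw [a1, a2, a3, a3, a3, a3]
  rfl

lemma N0_eq {K : Type} [Field K] {q : K} (h0 : q ≠ 0) (s : ℤ) :
    N0 q (q ^ (-s)) = (q ^ (-2 : ℤ)) * (1 - q ^ (-2 * s)) * (1 - q ^ (3 * (1 - s))) *
      (1 - q ^ (2 * (1 - s))) * (1 - q ^ (6 * (1 - s))) * (1 - q ^ (4 * (1 - s))) +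
    ((1 - q⁻¹) * (1 + q ^ (-1 : ℤ)) * (1 - q ^ (4 * (1 - s))) +
      (1 - q⁻¹) * ((1 - q⁻¹) * (1 + q ^ (-1 : ℤ))) * q ^ (4 * (1 - s))) *
      ((1 + q ^ (3 * (1 - s) - 1)) * (1 - q ^ (-2 * s)) * (1 - q ^ (2 * (1 - s))) *
        (1 - q ^ (6 * (1 - s))) +
        (1 - q ^ (-s)) * ((q ^ (4 * (1 - s) - 1) + q ^ (6 * (1 - s))) * (1 - q⁻¹) *
          (1 - q ^ (2 * (1 - s))) +
          2 * q ^ (2 * (1 - s)) * (1 - q ^ (6 * (1 - s) - 1)) * (1 - q ^ (1 - 2 * s)))) := by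
  have a1 : q * q ^ (-s) = q ^ (1 - s) := by
    rw [show (1 - s) = 1 + -s by ring, zpow_add₀ h0, zpow_one]
  have a2 : q * (q ^ (-s)) ^ 2 = q ^ (1 - 2 * s) := by
    rw [show (1 - 2 * s) = 1 + (-s) * 2 by ring, zpow_add₀ h0, zpow_one, zpow_mul, zpow_ofNat]
  have a3 : ∀ j : ℕ, (q ^ (1 - s)) ^ j = q ^ ((j : ℤ) * (1 - s)) := by
    intro j
    rw [mul_comm, zpow_mul, zpow_natCast]
  have a4 : (q ^ (-s)) ^ 2 = q ^ (-2 * s) := by
    rw [show (-2 * s) = (-s) * 2 by ring, zpow_mul, zpow_ofNat]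
  have a5 : ∀ c : ℤ, q ^ c / q = q ^ (c - 1) := by
    intro c
    rw [zpow_sub₀ h0, zpow_one]
  have a6 : 1 / q ^ 2 = q ^ (-2 : ℤ) := by
    rw [zpow_neg, one_div, zpow_ofNat]
  have a7 : 1 - q ^ (-2 : ℤ) = (1 - q⁻¹) * (1 + q ^ (-1 : ℤ)) := by
    have : q ^ (-2 : ℤ) = q⁻¹ * q⁻¹ := by
      rw [zpow_neg, ← mul_inv, ← pow_two, zpow_ofNat]
    rw [this, zpow_neg_one]; ring
  unfold N0
  rw [a2, a1, a3, a3, a3, a3, a4, a5, a5, a5, a6, a7, one_div]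
  rfl

lemma Zf_eq {K : Type} [Field K] {q : K} (h0 : q ≠ 0) (h1 : q ≠ 1) (s : ℤ) :
    Zf q s = MM q s / EE q s := by
  have hh : 1 - q⁻¹ ≠ 0 := by
    rw [sub_ne_zero]
    intro h
    exact h1 (by rw [← inv_inv q, ← h, inv_one])
  have hN : N0 q (q ^ (-s)) = (1 - q⁻¹) ^ 5 * MM q s := by
    rw [N0_eq h0]
    simp only [uu_spec h1]
    unfold MM
    ring
  have hQ : Q0 q (q ^ (-s)) = (1 - q⁻¹) ^ 9 * EE q s := by
    rw [Q0_eq h0]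
    simp only [uu_spec h1]
    unfold EE
    ring
  unfold Zf
  rw [hN, hQ, show (1 - q⁻¹) ^ 9 * EE q s = (1 - q⁻¹) ^ 5 * ((1 - q⁻¹) ^ 4 * EE q s) by ring,
    mul_div_mul_left _ _ (pow_ne_zero 5 hh), mul_div_assoc', mul_div_mul_left _ _
      (pow_ne_zero 4 hh)]

end Pool.Agent.H260TZ
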