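import Pool.Agent.H260TZ.Lim

namespace Pool.Agent.H260TZ

open Polynomial Filter Topology

/-- numerator of the topological zeta function -/
noncomputable def NT : ℚ[X] := 72 * X ^ 4 - 144 * X ^ 3 + 76 * X ^ 2 + 6 * X - 9

/-- denominator of the topological zeta function -/
noncomputable def DT : ℚ[X] := 36 * X ^ 2 * (2 * X - 1) * (X - 1) ^ 5

lemma NT_eval (s : ℚ) : NT.eval s = 72 * s ^ 4 - 144 * s ^ 3 + 76 * s ^ 2 + 6 * s - 9 := by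
  unfold NT
  simp only [eval_add, eval_mul, eval_sub, eval_pow, eval_X, eval_ofNat]

lemma DT_eval (s : ℚ) : DT.eval s = 36 * s ^ 2 * (2 * s - 1) * (s - 1) ^ 5 := by
  unfold DT
  simp only [eval_mul, eval_sub, eval_pow, eval_X, eval_ofNat, eval_one]

section
variable {K : Type} [NontriviallyNormedField K]

lemma tend_MM (s : ℤ) : Tendsto (fun q : K => MM q s) (𝓝[≠] 1)
    (𝓝 (4 * (s : K) * (72 * (s : K) ^ 4 - 144 * (s : K) ^ 3 + 76 * (s : K) ^ 2 + 6 * s - 9))) := by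
  have A := (((((tend_pow (K := K) (-2)).mul (tend_uu (-2 * s))).mul
    (tend_uu (3 * (1 - s)))).mul (tend_uu (2 * (1 - s)))).mul (tend_uu (6 * (1 - s)))).mul
      (tend_uu (4 * (1 - s)))
  have one : Tendsto (fun _ : K => (1 : K)) (𝓝[≠] 1) (𝓝 1) := tendsto_const_nhds
  have two : Tendsto (fun _ : K => (2 : K)) (𝓝[≠] 1) (𝓝 2) := tendsto_const_nhds
  have B1 := one.add (tend_pow (K := K) (-1))
  have B := (B1.mul (tend_uu (4 * (1 - s)))).add (B1.mul (tend_pow (4 * (1 - s))))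
  have C := (((one.add (tend_pow (K := K) (3 * (1 - s) - 1))).mul (tend_uu (-2 * s))).mul
    (tend_uu (2 * (1 - s)))).mul (tend_uu (6 * (1 - s)))
  have E := ((tend_uu (K := K) (-s))).mul
    ((((tend_pow (K := K) (4 * (1 - s) - 1)).add (tend_pow (6 * (1 - s)))).mul
      (tend_uu (2 * (1 - s)))).add
    (((two.mul (tend_pow (2 * (1 - s)))).mul (tend_uu (6 * (1 - s) - 1))).mul
      (tend_uu (1 - 2 * s))))
  have F := A.add (B.mul (C.add E))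
  unfold MM
  refine (F.congr (fun q => rfl)).trans (le_of_eq ?_)
  congr 1
  push_cast
  ring

lemma tend_EE (s : ℤ) : Tendsto (fun q : K => EE q s) (𝓝[≠] 1)
    (𝓝 (4 * (s : K) * (36 * (s : K) ^ 2 * (2 * (s : K) - 1) * ((s : K) - 1) ^ 5))) := by
  have A := ((((((tend_uu (K := K) (-s)).pow 3).mul (tend_uu (1 - s))).mul
    (tend_uu (1 - 2 * s))).mul (tend_uu (3 * (1 - s)))).mul (tend_uu (2 * (1 - s)))).mul
      (tend_uu (6 * (1 - s))) |>.mul (tend_uu (4 * (1 - s)))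
  unfold EE
  refine (A.congr (fun q => rfl)).trans (le_of_eq ?_)
  congr 1
  push_cast
  ring

lemma tend_Zf [CharZero K] {s : ℤ} (h0 : s ≠ 0) (h1 : s ≠ 1) :
    Tendsto (fun q : K => Zf q s) (𝓝[≠] 1) (𝓝 (((NT.eval (s : ℚ) / DT.eval (s : ℚ) : ℚ)) : K)) := by
  have hs0 : (s : K) ≠ 0 := by exact_mod_cast h0
  have hs1 : (s : K) - 1 ≠ 0 := by
    rw [sub_ne_zero]; exact_mod_cast h1
  have hs2 : 2 * (s : K) - 1 ≠ 0 := by
    intro h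
    have h2 : ((2 * s - 1 : ℤ) : K) = 0 := by push_cast; exact h
    have h3 : 2 * s - 1 = 0 := by exact_mod_cast h2
    omega
  have hE : 4 * (s : K) * (36 * (s : K) ^ 2 * (2 * (s : K) - 1) * ((s : K) - 1) ^ 5) ≠ 0 := by
    have h4 : (4 : K) ≠ 0 := by norm_num
    have h36 : (36 : K) ≠ 0 := by norm_num
    exact mul_ne_zero (mul_ne_zero h4 hs0) (mul_ne_zero (mul_ne_zero (mul_ne_zero h36
      (pow_ne_zero 2 hs0)) hs2) (pow_ne_zero 5 hs1))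
  have h := (tend_MM (K := K) s).div (tend_EE s) hE
  have h4s : 4 * (s : K) ≠ 0 := mul_ne_zero (by norm_num) hs0
  rw [mul_div_mul_left _ _ h4s] at h
  rw [NT_eval, DT_eval]
  push_cast
  refine h.congr' ?_
  have hn0 : ∀ᶠ q : K in 𝓝[≠] 1, q ≠ 0 :=
    (eventually_ne_nhds (one_ne_zero)).filter_mono nhdsWithin_le_nhds
  filter_upwards [self_mem_nhdsWithin, hn0] with q hq hq0
  exact (Zf_eq hq0 hq s).symm

end

lemma Q0_ne {q : ℚ} (hq : 1 < q) {s : ℤ} (h0 : s ≠ 0) (h1 : s ≠ 1) : Q0 q (q ^ (-s)) ≠ 0 := by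
  have key : ∀ c : ℤ, c ≠ 0 → 1 - q ^ c ≠ 0 := by
    intro c hc h
    rw [sub_eq_zero] at h
    have := (zpow_eq_one_iff_right₀ (by linarith) hq.ne').mp h.symm
    exact hc this
  rw [Q0_eq (by linarith)]
  refine mul_ne_zero (mul_ne_zero (mul_ne_zero (mul_ne_zero (mul_ne_zero (mul_ne_zero
      (pow_ne_zero 3 (key _ ?_)) (key _ ?_)) (key _ ?_)) (key _ ?_)) (key _ ?_)) (key _ ?_))
      (key _ ?_)
  all_goals omega

lemma cast_Zf {K : Type} [Field K] [CharZero K] (q : ℚ) (s : ℤ) :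
    ((Zf q s : ℚ) : K) = Zf (q : K) s := by
  unfold Zf N0 Q0
  push_cast
  rfl

lemma norm_pow_sub (ℓ p : ℕ) [Fact ℓ.Prime] [Fact p.Prime] (hp : p ≠ ℓ) (m f : ℕ)
    (hf : ℓ ^ m ∣ f) : ‖(((p ^ ((ℓ - 1) * f) : ℕ) : ℚ_[ℓ])) - 1‖ ≤ (ℓ : ℝ) ^ (-((m + 1 : ℕ) : ℤ)) := by
  obtain ⟨k, rfl⟩ := hf
  have hℓ : ℓ.Prime := Fact.out
  have hpp : p.Prime := Fact.out
  have h1 : (ℓ : ℤ) ∣ (p : ℤ) ^ ((ℓ - 1) * k) - 1 := by
    have hcop : IsCoprime (p : ℤ) ℓ := by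
      rw [Nat.isCoprime_iff_coprime]
      exact (Nat.coprime_primes hpp hℓ).mpr hp
    have h2 := Int.ModEq.pow_card_sub_one_eq_one hℓ hcop
    have h3 := h2.pow k
    rw [one_pow, ← pow_mul] at h3
    exact h3.symm.dvd
  have h2 := dvd_sub_pow_of_dvd_sub (R := ℤ) (p := ℓ) (a := (p : ℤ) ^ ((ℓ - 1) * k)) (b := 1) h1 m
  rw [one_pow, ← pow_mul] at h2
  have h3 := (Padic.norm_int_le_pow_iff_dvd (p := ℓ)
    ((p : ℤ) ^ ((ℓ - 1) * k * ℓ ^ m) - 1) (m + 1)).mpr (by exact_mod_cast h2)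
  have e : (ℓ - 1) * (ℓ ^ m * k) = (ℓ - 1) * k * ℓ ^ m := by ring
  rw [e]
  push_cast at h3 ⊢
  exact h3

theorem isTopZeta_cc : IsTopZeta cc NT DT := by
  refine ⟨?_, {0, 1}, by simp, ?_⟩
  · intro h
    have : DT.eval (2 : ℚ) = 0 := by rw [h, eval_zero]
    rw [DT_eval] at this
    norm_num at this
  intro ℓ hℓ
  refine ⟨{ℓ}, Set.finite_singleton ℓ, ?_⟩
  intro p hp hpS
  have hpℓ : p ≠ ℓ := by simpa using hpS
  have hℓ2 : 2 ≤ ℓ := (Fact.out : ℓ.Prime).two_le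
  refine ⟨ℓ - 1, by omega, ?_⟩
  intro s hs
  have hs0 : s ≠ 0 := fun h => hs (by simp [h])
  have hs1 : s ≠ 1 := fun h => hs (by simp [h])
  constructor
  · rw [DT_eval]
    have h0 : (s : ℚ) ≠ 0 := by exact_mod_cast hs0
    have h1 : (s : ℚ) - 1 ≠ 0 := by
      rw [sub_ne_zero]; exact_mod_cast hs1
    have h2 : 2 * (s : ℚ) - 1 ≠ 0 := by
      intro h
      have h2 : ((2 * s - 1 : ℤ) : ℚ) = 0 := by push_cast; exact h
      have h3 : 2 * s - 1 = 0 := by exact_mod_cast h2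
      omega
    exact mul_ne_zero (mul_ne_zero (mul_ne_zero (by norm_num) (pow_ne_zero 2 h0)) h2)
      (pow_ne_zero 5 h1)
  · intro ε hε
    have ht := tend_Zf (K := ℚ_[ℓ]) hs0 hs1
    rw [Metric.tendsto_nhdsWithin_nhds] at ht
    obtain ⟨δ, hδ, hball⟩ := ht ε hε
    obtain ⟨m, hm⟩ : ∃ m : ℕ, (ℓ : ℝ) ^ (-((m + 1 : ℕ) : ℤ)) < δ := by
      obtain ⟨m, hm⟩ := exists_pow_lt_of_lt_one hδ (y := ((ℓ : ℝ))⁻¹)
        (inv_lt_one_of_one_lt₀ (by exact_mod_cast hℓ2))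
      refine ⟨m, ?_⟩
      rw [zpow_neg, zpow_natCast, ← inv_pow]
      refine lt_of_le_of_lt ?_ hm
      exact pow_le_pow_of_le_one (by positivity) (inv_le_one_of_one_le₀
        (by exact_mod_cast (by omega : 1 ≤ ℓ))) (Nat.le_succ m)
    refine ⟨m, ?_⟩
    intro f hf hdvd
    have hn : (ℓ - 1) * f ≠ 0 := by
      apply mul_ne_zero <;> omega
    have hq1 : 1 < p ^ ((ℓ - 1) * f) := Nat.one_lt_pow hn (Fact.out : p.Prime).one_lt
    have hq1Q : (1 : ℚ) < ((p ^ ((ℓ - 1) * f) : ℕ) : ℚ) := by exact_mod_cast hq1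
    refine ⟨_, zval_witt p ((ℓ - 1) * f) hn s (Q0_ne hq1Q hs0 hs1), ?_⟩
    have hne : (((p ^ ((ℓ - 1) * f) : ℕ) : ℚ) : ℚ_[ℓ]) ∈ ({1}ᶜ : Set ℚ_[ℓ]) := by
      intro h
      have h2 : (((p ^ ((ℓ - 1) * f) : ℕ) : ℚ) : ℚ_[ℓ]) = 1 := h
      have h3 : ((p ^ ((ℓ - 1) * f) : ℕ) : ℚ) = 1 := by exact_mod_cast h2
      linarith
    have hd : dist ((((p ^ ((ℓ - 1) * f) : ℕ) : ℚ) : ℚ_[ℓ])) 1 < δ := by
      rw [dist_eq_norm]
      refine lt_of_le_of_lt ?_ hm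
      have := norm_pow_sub ℓ p hpℓ m f hdvd
      push_cast at this ⊢
      exact this
    have hfin := hball hne hd
    rw [dist_eq_norm] at hfin
    have e : (((1 - ((p ^ ((ℓ - 1) * f) : ℕ) : ℚ)⁻¹) ^ 4 *
        (N0 ((p ^ ((ℓ - 1) * f) : ℕ) : ℚ) (((p ^ ((ℓ - 1) * f) : ℕ) : ℚ) ^ (-s)) /
        Q0 ((p ^ ((ℓ - 1) * f) : ℕ) : ℚ) (((p ^ ((ℓ - 1) * f) : ℕ) : ℚ) ^ (-s))) : ℚ) : ℚ_[ℓ]) =
        Zf (((p ^ ((ℓ - 1) * f) : ℕ) : ℚ) : ℚ_[ℓ]) s := cast_Zf _ s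
    rw [Rat.cast_sub, e]
    exact hfin

end Pool.Agent.H260TZ
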