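import Pool.Agent.H260TZ.Inst

namespace Pool.Agent.H260TZ

open Polynomial

/-- numerator of the local zeta function -/
def N0 {K : Type} [Field K] (q x : K) : K :=
  (1 / q ^ 2) * (1 - x ^ 2) * (1 - (q * x) ^ 3) * (1 - (q * x) ^ 2) * (1 - (q * x) ^ 6) *
      (1 - (q * x) ^ 4) +
    ((1 - 1 / q ^ 2) * (1 - (q * x) ^ 4) + (1 - 1 / q) * (1 - 1 / q ^ 2) * (q * x) ^ 4) *
      ((1 + (q * x) ^ 3 / q) * (1 - x ^ 2) * (1 - (q * x) ^ 2) * (1 - (q * x) ^ 6) +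
        (1 - x) * (((q * x) ^ 4 / q + (q * x) ^ 6) * (1 - 1 / q) * (1 - (q * x) ^ 2) +
          2 * (q * x) ^ 2 * (1 - (q * x) ^ 6 / q) * (1 - q * x ^ 2)))

/-- denominator of the local zeta function -/
def Q0 {K : Type} [Field K] (q x : K) : K :=
  (1 - x) ^ 3 * (1 - q * x) * (1 - q * x ^ 2) * (1 - (q * x) ^ 3) * (1 - (q * x) ^ 2) *
    (1 - (q * x) ^ 6) * (1 - (q * x) ^ 4)

lemma canc {a b c G : ℝ} (h : G ≠ 0) : a / G * (b * G / c) = a * b / c := by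
  rw [div_mul_div_comm, show a * (b * G) = G * (a * b) by ring, mul_div_mul_left _ _ h]

lemma keyT {q x : ℝ} (hq : q ≠ 0) (h1 : 1 - q * x ^ 2 ≠ 0) (h2 : 1 - (q * x) ^ 6 ≠ 0)
    (h3 : 1 - q * (q * x) ^ 4 ≠ 0) :
    ((q * x) ^ 2 + q * (q * x) ^ 4) / (1 - q * (q * x) ^ 4) *
      ((1 - x * x) / (1 - q * x ^ 2) - (1 - (q * x) ^ 6 / q) / (1 - (q * x) ^ 6)) =
    ((q * x) ^ 4 / q + (q * x) ^ 6) * (1 - 1 / q) / ((1 - q * x ^ 2) * (1 - (q * x) ^ 6)) := by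
  have h4 : (1 - x * x) / (1 - q * x ^ 2) - (1 - (q * x) ^ 6 / q) / (1 - (q * x) ^ 6) =
      (q * x ^ 2) * (1 - 1 / q) * (1 - q * (q * x) ^ 4) /
        ((1 - q * x ^ 2) * (1 - (q * x) ^ 6)) := by
    rw [div_sub_div _ _ h1 h2]
    congr 1
    field_simp
    ring
  rw [h4, canc h3]
  congr 1
  field_simp

lemma formal (a X G T S d Y3 G1 q2' : ℝ) :
    ((q2' + G1 * ((1 + a * T + d) / Y3)) * (X / a ^ 2) +
      G1 * (a * (S - T) / Y3) * (G / a ^ 2)) =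
    q2' * (X / a ^ 2) + G1 * (((1 + d) * X + a * (T * (X - G) + S * G)) / a ^ 2 / Y3) := by
  ring

lemma comb {a Y Z Y3 Y2 Y6 F A q y c B E q1 q2 q2' : ℝ} (ha : a ≠ 0) (hY : Y ≠ 0) (hZ : Z ≠ 0)
    (hY3 : Y3 ≠ 0) (hY2 : Y2 ≠ 0) (hY6 : Y6 ≠ 0) (hF : F ≠ 0) :
    a / (a ^ 2 * Y) * (q2' * ((A / Z) / a ^ 2) + (q2 + q1 * q2 * y / F) *
      ((c * (A / Z) + a * (B / (Z * Y6) + 2 * q / Y2 * (E / Y6))) / a ^ 2 / Y3)) =
    (q2' * A * Y3 * Y2 * Y6 * F + (q2 * F + q1 * q2 * y) * (c * A * Y2 * Y6 +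
      a * (B * Y2 + 2 * q * E * Z))) / (a ^ 3 * Y * Z * Y3 * Y2 * Y6 * F) := by
  field_simp

lemma Wv_eq {R : Type} [CommRing R] [IsDomain R] (D : DV R) {x : ℝ} (hx : 0 < x)
    (hx1 : (D.q : ℝ) ^ 2 * x < 1) :
    Q0 (D.q : ℝ) x ≠ 0 ∧ D.Wv x = N0 (D.q : ℝ) x / Q0 (D.q : ℝ) x := by
  have hq := D.q1
  have hq0 := D.q0
  have hg := D.gv_lt hx hx1
  have h1 : 0 < D.q * x := mul_pos D.q0 hx
  have h2 : (D.q : ℝ) * (D.q * x) < 1 := by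
    calc (D.q : ℝ) * (D.q * x) = D.q ^ 2 * x := by ring
      _ < 1 := hx1
  have h3 : (D.q : ℝ) * x < 1 := by nlinarith
  have hxlt : x < 1 := by nlinarith
  have e1 : (1 : ℝ) - x ≠ 0 := by linarith
  have e2 : 1 - (D.q : ℝ) * x ≠ 0 := by linarith
  have e3 : 1 - (D.q : ℝ) * x ^ 2 ≠ 0 := by nlinarith
  have e4 : 1 - ((D.q : ℝ) * x) ^ 3 ≠ 0 := by
    have := pow_lt_one₀ h1.le h3 (n := 3) (by norm_num)
    linarith
  have e5 : 1 - ((D.q : ℝ) * x) ^ 2 ≠ 0 := by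
    have := pow_lt_one₀ h1.le h3 (n := 2) (by norm_num)
    linarith
  have e6 : 1 - ((D.q : ℝ) * x) ^ 6 ≠ 0 := by
    have := pow_lt_one₀ h1.le h3 (n := 6) (by norm_num)
    linarith
  have e7 : 1 - ((D.q : ℝ) * x) ^ 4 ≠ 0 := by
    have := pow_lt_one₀ h1.le h3 (n := 4) (by norm_num)
    linarith
  have hgv : D.gv x = (D.q : ℝ) * ((D.q : ℝ) * x) ^ 4 := rfl
  have e8 : 1 - (D.q : ℝ) * ((D.q : ℝ) * x) ^ 4 ≠ 0 := by
    rw [← hgv]; linarith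
  refine ⟨?_, ?_⟩
  · unfold Q0
    exact mul_ne_zero (mul_ne_zero (mul_ne_zero (mul_ne_zero (mul_ne_zero (mul_ne_zero
      (pow_ne_zero 3 e1) e2) e3) e4) e5) e6) e7
  · have hK1 : D.Kv x 1 = (1 - x) / ((1 - x) ^ 2 * (1 - D.q * x)) := by
      unfold DV.Kv; rw [mul_one, mul_one]
    have hKx : D.Kv x x = ((1 - x * x) / (1 - D.q * x ^ 2)) / (1 - x) ^ 2 := by
      unfold DV.Kv
      rw [div_div, show (D.q : ℝ) * x * x = D.q * x ^ 2 by ring, mul_comm ((1 - x) ^ 2)]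
    have hKg : D.Kv x (x * D.gv x) =
        ((1 - (D.q * x) ^ 6 / D.q) / (1 - (D.q * x) ^ 6)) / (1 - x) ^ 2 := by
      unfold DV.Kv
      rw [div_div, show (D.q : ℝ) * x * (x * D.gv x) = (D.q * x) ^ 6 by rw [hgv]; ring,
        mul_comm ((1 - x) ^ 2), show x * (x * D.gv x) = (D.q * x) ^ 6 / D.q by
          rw [hgv]; field_simp]
    unfold DV.Wv DV.c0 DV.c1 DV.al DV.be
    rw [hK1, hKx, hKg, hgv, formal, keyT hq0.ne' e3 e6 e8]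
    unfold DV.G1
    rw [comb e1 e2 e3 e4 e5 e6 e7]
    unfold DV.Q1 DV.Q2 N0 Q0
    congr 1
    have e9 : (D.q : ℝ) ^ 2 * x ^ 3 = (D.q * x) ^ 3 / D.q := by field_simp
    rw [e9]
    ring

/-- numerator polynomial -/
noncomputable def PN (q : ℚ) : ℚ[X] :=
  C (1 / q ^ 2) * (1 - X ^ 2) * (1 - (C q * X) ^ 3) * (1 - (C q * X) ^ 2) * (1 - (C q * X) ^ 6) *
      (1 - (C q * X) ^ 4) +
    (C (1 - 1 / q ^ 2) * (1 - (C q * X) ^ 4) +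
        C (1 - 1 / q) * C (1 - 1 / q ^ 2) * (C q * X) ^ 4) *
      ((1 + (C q * X) ^ 3 * C (1 / q)) * (1 - X ^ 2) * (1 - (C q * X) ^ 2) *
          (1 - (C q * X) ^ 6) +
        (1 - X) * (((C q * X) ^ 4 * C (1 / q) + (C q * X) ^ 6) * C (1 - 1 / q) *
          (1 - (C q * X) ^ 2) +
          2 * (C q * X) ^ 2 * (1 - (C q * X) ^ 6 * C (1 / q)) * (1 - C q * X ^ 2)))

/-- denominator polynomial -/
noncomputable def QN (q : ℚ) : ℚ[X] :=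
  (1 - X) ^ 3 * (1 - C q * X) * (1 - C q * X ^ 2) * (1 - (C q * X) ^ 3) * (1 - (C q * X) ^ 2) *
    (1 - (C q * X) ^ 6) * (1 - (C q * X) ^ 4)

lemma aeval_PN {K : Type} [Field K] [CharZero K] (q : ℚ) (x : K) :
    aeval x (PN q) = N0 (q : K) x := by
  unfold PN N0
  simp only [map_add, map_mul, map_sub, map_one, map_pow, aeval_X, aeval_C, eq_ratCast,
    map_ofNat]
  push_cast
  ring

lemma aeval_QN {K : Type} [Field K] [CharZero K] (q : ℚ) (x : K) :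
    aeval x (QN q) = Q0 (q : K) x := by
  unfold QN Q0
  simp only [map_mul, map_sub, map_one, map_pow, aeval_X, aeval_C, eq_ratCast]

lemma eval_PN (q x : ℚ) : (PN q).eval x = N0 q x := by
  unfold PN N0
  simp only [eval_add, eval_mul, eval_sub, eval_one, eval_pow, eval_X, eval_C, eval_ofNat]
  ring

lemma eval_QN (q x : ℚ) : (QN q).eval x = Q0 q x := by
  unfold QN Q0
  simp only [eval_mul, eval_sub, eval_one, eval_pow, eval_X, eval_C]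

theorem zval_witt (p : ℕ) [Fact p.Prime] (n : ℕ) (hn : n ≠ 0) (s : ℤ)
    (hs : Q0 ((p ^ n : ℕ) : ℚ) (((p ^ n : ℕ) : ℚ) ^ (-s)) ≠ 0) :
    ZVal cc (WittVector p (GaloisField p n)) (p ^ n) s
      ((1 - ((p ^ n : ℕ) : ℚ)⁻¹) ^ 4 * (N0 ((p ^ n : ℕ) : ℚ) (((p ^ n : ℕ) : ℚ) ^ (-s)) /
        Q0 ((p ^ n : ℕ) : ℚ) (((p ^ n : ℕ) : ℚ) ^ (-s)))) := by
  refine ⟨PN ((p ^ n : ℕ) : ℚ), QN ((p ^ n : ℕ) : ℚ), 2, ?_, ?_, ?_⟩
  · intro σ hσ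
    set D := DV.witt p n hn with hD
    have hDq : D.q = p ^ n := rfl
    have h := hsFin D hσ
    have hq := D.q1
    have hq0 := D.q0
    have hx : 0 < (D.q : ℝ) ^ (-σ) := Real.rpow_pos_of_pos hq0 _
    have hx1 : (D.q : ℝ) ^ 2 * (D.q : ℝ) ^ (-σ) < 1 := by
      rw [← Real.rpow_natCast, ← Real.rpow_add hq0]
      apply Real.rpow_lt_one_of_one_lt_of_neg hq
      push_cast
      linarith
    obtain ⟨h1, h2⟩ := Wv_eq D hx hx1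
    rw [h2] at h
    rw [hDq] at h1 h
    rw [aeval_QN, aeval_PN]
    have e : ((((p ^ n : ℕ) : ℚ)) : ℝ) = ((p ^ n : ℕ) : ℝ) := by norm_cast
    rw [e]
    exact ⟨h1, h⟩
  · rw [eval_QN]; exact hs
  · rw [eval_PN, eval_QN]

end Pool.Agent.H260TZ
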