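import Pool.Agent.H260TZ.Cnt

namespace Pool.Agent.H260TZ

open Submodule Finset

lemma hs_sigma {β : Type} {γ : β → Type} {f : (Σ b, γ b) → ℝ} (hf : ∀ x, 0 ≤ f x)
    {g : β → ℝ} {S : ℝ} (h1 : ∀ b, HasSum (fun c => f ⟨b, c⟩) (g b)) (h2 : HasSum g S) :
    HasSum f S := by
  have hs : Summable f := by
    rw [summable_sigma_of_nonneg hf]
    refine ⟨fun b => (h1 b).summable, ?_⟩
    have : (fun b => ∑' c, f ⟨b, c⟩) = g := funext fun b => (h1 b).tsum_eq
    rw [this]
    exact h2.summable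
  have h3 := hs.hasSum.sigma h1
  rw [← h3.unique h2]
  exact hs.hasSum

lemma hs_prod {β γ : Type} {f : β × γ → ℝ} (hf : ∀ x, 0 ≤ f x)
    {g : β → ℝ} {S : ℝ} (h1 : ∀ b, HasSum (fun c => f (b, c)) (g b)) (h2 : HasSum g S) :
    HasSum f S := by
  have := hs_sigma (γ := fun _ : β => γ) (f := fun x => f (x.1, x.2)) (fun x => hf _) h1 h2
  exact (Equiv.sigmaEquivProd β γ).hasSum_iff.mp this

lemma hs_fiber {α β : Type} (φ : α → β) {F : α → ℝ} (hF : ∀ a, 0 ≤ F a) {G : β → ℝ} {S : ℝ}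
    (h1 : ∀ b, HasSum (fun a : {a // φ a = b} => F a.1) (G b)) (h2 : HasSum G S) :
    HasSum F S := by
  have := hs_sigma (γ := fun b : β => {a // φ a = b}) (f := fun x => F x.2.1) (fun x => hF _) h1 h2
  exact (Equiv.sigmaFiberEquiv φ).hasSum_iff.mp this

lemma cauchy {a b : ℕ → ℝ} {A B : ℝ} (hA : HasSum a A) (hB : HasSum b B) :
    HasSum (fun n => ∑ i ∈ range (n + 1), a i * b (n - i)) (A * B) := by
  have := hasSum_sum_range_mul_of_summable_norm (f := a) (g := b)
    (summable_norm_iff.mpr hA.summable) (summable_norm_iff.mpr hB.summable)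
  rw [hA.tsum_eq, hB.tsum_eq] at this
  exact this

namespace DV

variable {R : Type} [CommRing R] [IsDomain R] (D : DV R)

/-- exponent of the index -/
noncomputable def wt (P : Lat R) : ℕ :=
  2 * (D.parE.symm P).1 + ex (D.parE.symm P).2.1 (D.parE.symm P).2.2.1

lemma idx_wt (P : Lat R) : idx P.1 = D.q ^ D.wt P := by
  have h := D.idx_par (D.parE.symm P)
  rw [← D.parE_val, Equiv.apply_symm_apply] at h
  exact h

lemma wt_of_idx {N : Lat R} {w : ℕ} (h : idx N.1 = D.q ^ w) : D.wt N = w := by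
  rw [D.idx_wt] at h
  exact Nat.pow_right_injective D.two_le h

lemma wt_parE (x : ℕ × (Bool × (Σ n, D.Q n))) : D.wt (D.parE x) = 2 * x.1 + ex x.2.1 x.2.2.1 := by
  unfold wt
  rw [Equiv.symm_apply_apply]

lemma kP_parE (x : ℕ × (Bool × (Σ n, D.Q n))) : D.kP (D.parE x) = D.kk x := by
  unfold kP
  rw [Equiv.symm_apply_apply]

lemma q1 : (1 : ℝ) < D.q := by
  have := D.two_le
  exact_mod_cast (by omega : 1 < D.q)

lemma q0 : (0 : ℝ) < D.q := lt_trans zero_lt_one D.q1

/-- inner sum for the `K` series -/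
lemma sumz (x r : ℝ) (n : ℕ) :
    ∑ z : D.Q n, x ^ n * r ^ (n - D.lev n (D.lift z)) =
      r * (x * r * D.q) ^ n +
        (1 - r) * ∑ i ∈ range (n + 1), (x * r * D.q) ^ i * x ^ (n - i) := by
  rw [← mul_sum, D.sum_lev (fun j => r ^ (n - j)) (fun z => D.lift z)]
  have h1 : ∀ i ∈ range n, (r ^ (n - (i + 1)) - r ^ (n - i)) *
      (Nat.card {z : D.Q n // D.t ^ (i + 1) ∣ D.lift z} : ℝ) =
      (1 - r) * (r * D.q) ^ (n - 1 - i) := by
    intro i hi
    rw [mem_range] at hi
    have h2 : Nat.card {z : D.Q n // D.t ^ (i + 1) ∣ D.lift z} = D.q ^ (n - (i + 1)) := by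
      have := D.card_near (n := n) (j := i + 1) (by omega) 0
      simp only [sub_zero] at this
      exact this
    rw [h2]
    have e1 : n - (i + 1) = n - 1 - i := by omega
    have e2 : n - i = (n - 1 - i) + 1 := by omega
    rw [e1, e2]
    push_cast
    ring
  rw [sum_congr rfl h1, ← mul_sum, sum_range_reflect (fun i => (r * (D.q : ℝ)) ^ i) n,
    sum_range_succ (fun i => (x * r * (D.q : ℝ)) ^ i * x ^ (n - i)) n]
  have h3 : x ^ n * ∑ i ∈ range n, (r * (D.q : ℝ)) ^ i =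
      ∑ i ∈ range n, (x * r * (D.q : ℝ)) ^ i * x ^ (n - i) := by
    rw [mul_sum]
    apply sum_congr rfl
    intro i hi
    rw [mem_range] at hi
    have e : x ^ n = x ^ i * x ^ (n - i) := by rw [← pow_add]; congr 1; omega
    rw [e, mul_assoc x r, mul_pow x]
    ring
  rw [← h3]
  simp only [Nat.sub_self, pow_zero, mul_one, Nat.sub_zero]
  rw [mul_assoc x r, mul_pow x, mul_pow r]
  ring

/-- value of the `K` series -/
noncomputable def Kv (x r : ℝ) : ℝ :=
  (1 - x * r) / ((1 - x) ^ 2 * (1 - D.q * x * r))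

lemma hsK0 {x r : ℝ} (hx : 0 < x) (hx1 : D.q * x < 1) (hr : 0 < r) (hr1 : r ≤ 1) :
    HasSum (fun p : Bool × (Σ n, D.Q n) => x ^ (ex p.1 p.2.1) *
      r ^ (p.2.1 - D.lev p.2.1 (D.lift p.2.2)))
      ((1 + x) * (r * (1 - x * r * D.q)⁻¹ + (1 - r) * ((1 - x * r * D.q)⁻¹ * (1 - x)⁻¹))) := by
  have hxlt : x < 1 := by nlinarith [D.q1]
  have hq0 := D.q0
  have hg0 : 0 ≤ x * r * D.q := by positivity
  have hg1 : x * r * D.q < 1 := by
    calc x * r * D.q ≤ x * 1 * D.q := by gcongr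
      _ < 1 := by linarith
  have hA := hasSum_geometric_of_lt_one hg0 hg1
  have hB := hasSum_geometric_of_lt_one hx.le hxlt
  have hT := cauchy hA hB
  have hn : HasSum (fun n : ℕ => ∑ z : D.Q n, x ^ n * r ^ (n - D.lev n (D.lift z)))
      (r * (1 - x * r * D.q)⁻¹ + (1 - r) * ((1 - x * r * D.q)⁻¹ * (1 - x)⁻¹)) := by
    have := (hA.mul_left r).add (hT.mul_left (1 - r))
    refine this.congr_fun ?_ |> fun h => h
    intro n
    exact D.sumz x r n
  have hsig : HasSum (fun p : (Σ n, D.Q n) => x ^ p.1 * r ^ (p.1 - D.lev p.1 (D.lift p.2)))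
      (r * (1 - x * r * D.q)⁻¹ + (1 - r) * ((1 - x * r * D.q)⁻¹ * (1 - x)⁻¹)) := by
    refine hs_sigma (fun p => by positivity) (fun n => ?_) hn
    exact hasSum_fintype _
  refine hs_prod (fun p => by positivity) (g := fun b => (if b then 1 else x) *
    (r * (1 - x * r * D.q)⁻¹ + (1 - r) * ((1 - x * r * D.q)⁻¹ * (1 - x)⁻¹))) ?_ ?_
  · intro b
    have := hsig.mul_left (if b then 1 else x)
    cases b
    · refine this.congr_fun ?_ |> fun h => h
      intro p
      simp only [ex, Bool.false_eq_true, if_false]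
      ring
    · refine this.congr_fun ?_ |> fun h => h
      intro p
      simp only [ex, if_true]
      ring
  · have := hasSum_fintype (fun b : Bool => (if b then 1 else x) *
      (r * (1 - x * r * D.q)⁻¹ + (1 - r) * ((1 - x * r * D.q)⁻¹ * (1 - x)⁻¹)))
    rw [Fintype.sum_bool] at this
    simp only [if_true, Bool.false_eq_true, if_false] at this
    rw [← add_mul] at this
    exact this

end DV

end Pool.Agent.H260TZ
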