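import Pool.Agent.H260TZ.Ser

namespace Pool.Agent.H260TZ

open Submodule Finset

namespace DV

variable {R : Type} [CommRing R] [IsDomain R] (D : DV R)

lemma hsK {x r : ℝ} (hx : 0 < x) (hx1 : D.q * x < 1) (hr : 0 < r) (hr1 : r ≤ 1) :
    HasSum (fun P : Lat R => x ^ D.wt P * r ^ D.kP P) (D.Kv x r) := by
  have hxlt : x < 1 := by nlinarith [D.q1]
  have hq0 := D.q0
  have hg1 : x * r * D.q < 1 := by
    calc x * r * D.q ≤ x * 1 * D.q := by gcongr
      _ < 1 := by linarith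
  rw [← D.parE.hasSum_iff]
  have h0 := D.hsK0 hx hx1 hr hr1
  have hm : HasSum (fun m : ℕ => (x ^ 2) ^ m) (1 - x ^ 2)⁻¹ :=
    hasSum_geometric_of_lt_one (by positivity) (by nlinarith)
  have h1 := hm.mul_right
    ((1 + x) * (r * (1 - x * r * D.q)⁻¹ + (1 - r) * ((1 - x * r * D.q)⁻¹ * (1 - x)⁻¹)))
  have h2 : HasSum (fun p : ℕ × (Bool × (Σ n, D.Q n)) => x ^ (2 * p.1 + ex p.2.1 p.2.2.1) *
      r ^ (D.kk p)) ((1 - x ^ 2)⁻¹ * ((1 + x) * (r * (1 - x * r * D.q)⁻¹ +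
        (1 - r) * ((1 - x * r * D.q)⁻¹ * (1 - x)⁻¹)))) := by
    refine hs_prod (fun p => by positivity) (fun m => ?_) h1
    refine (h0.mul_left ((x ^ 2) ^ m)).congr_fun ?_
    intro p
    simp only [kk]
    rw [pow_add, pow_mul, mul_assoc]
  have h3 : (1 - x ^ 2)⁻¹ * ((1 + x) * (r * (1 - x * r * D.q)⁻¹ +
        (1 - r) * ((1 - x * r * D.q)⁻¹ * (1 - x)⁻¹))) = D.Kv x r := by
    unfold Kv
    have e1 : (1 : ℝ) - x ≠ 0 := by linarith
    have e2 : (1 : ℝ) + x ≠ 0 := by linarith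
    have e3 : 1 - x * r * D.q ≠ 0 := by linarith
    have e4 : 1 - D.q * x * r ≠ 0 := by
      have : (D.q : ℝ) * x * r = x * r * D.q := by ring
      rw [this]; exact e3
    have e5 : (1 : ℝ) - x ^ 2 = (1 - x) * (1 + x) := by ring
    have e6 : 1 - (D.q : ℝ) * x * r = 1 - x * r * D.q := by ring
    rw [e5, e6]
    field_simp
    ring
  rw [h3] at h2
  refine h2.congr_fun ?_
  intro p
  simp only [Function.comp_apply]
  rw [D.wt_parE, D.kP_parE]

lemma hsJ {x : ℝ} (hx : 0 < x) (hx1 : D.q * x < 1) (N : Lat R) [DecidablePred fun J : Lat R => J.1 ≤ N.1] :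
    HasSum (fun J : Lat R => if J.1 ≤ N.1 then x ^ D.wt J else 0) (x ^ D.wt N * D.Kv x 1) := by
  have hne : ∀ J : Lat R, idx (J.1.map (D.gP N)) ≠ 0 := by
    intro J
    rw [D.idx_map_gP]
    exact mul_ne_zero J.2 N.2
  have hinj : Function.Injective (fun J : Lat R => (⟨J.1.map (D.gP N), hne J⟩ : Lat R)) := by
    intro J J' h
    apply Subtype.ext
    exact Submodule.map_injective_of_injective (D.gP_inj N) (congrArg Subtype.val h)
  rw [← hinj.hasSum_iff]
  · have h1 := (D.hsK hx hx1 one_pos le_rfl).mul_left (x ^ D.wt N)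
    refine h1.congr_fun ?_
    intro J
    have hle : J.1.map (D.gP N) ≤ N.1 := by
      rintro _ ⟨v, -, rfl⟩
      exact D.gP_mem N v
    simp only [Function.comp_apply]
    rw [if_pos hle]
    have : D.wt (⟨J.1.map (D.gP N), hne J⟩ : Lat R) = D.wt J + D.wt N := by
      apply D.wt_of_idx
      rw [D.idx_map_gP, D.idx_wt, D.idx_wt, pow_add]
    rw [this, pow_add, one_pow, mul_one, mul_comm]
  · intro J hJ
    rw [if_neg]
    intro hle
    apply hJ
    have hle' : J.1 ≤ LinearMap.range (D.gP N) := by rw [D.gP_range]; exact hle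
    have hmc := Submodule.map_comap_eq_of_le hle'
    refine ⟨⟨J.1.comap (D.gP N), ?_⟩, Subtype.ext hmc⟩
    intro h0
    apply J.2
    rw [← hmc, D.idx_map_gP, h0, zero_mul]

/-- coefficients `a` -/
noncomputable def av (x : ℝ) (k : ℕ) (i : ℕ) : ℝ :=
  if i = 0 then 1 else (1 - x) * ((D.q * x) ^ (2 * i) * (D.Nk k i : ℝ))

lemma sumz2 (x : ℝ) (k n : ℕ) :
    ∑ z : D.Q n, (D.q : ℝ) ^ (2 * n) * x ^ n * x ^ (2 * n - D.cor k true n z) =
      ∑ i ∈ range (n + 1), D.av x k i * ((D.q * x) ^ 3) ^ (n - i) := by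
  rw [← mul_sum]
  have e0 : ∑ z : D.Q n, x ^ (2 * n - D.cor k true n z) =
      ∑ z : D.Q n, (fun j => x ^ (2 * n - j)) (D.lev n (D.lift z * (D.t ^ k - D.lift z))) := by
    apply sum_congr rfl
    intro z _
    simp only [cor, if_true]
  rw [e0, D.sum_lev (fun j => x ^ (2 * n - j)) (fun z => D.lift z * (D.t ^ k - D.lift z)),
    sum_range_succ' (fun i => D.av x k i * ((D.q * x) ^ 3) ^ (n - i)), mul_add, add_comm]
  congr 1
  · rw [mul_sum]
    apply sum_congr rfl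
    intro i hi
    rw [mem_range] at hi
    rw [D.card_root (n := n) (i := i + 1) (by omega) k]
    unfold av
    rw [if_neg (Nat.succ_ne_zero i)]
    have e1 : 2 * n - i = (2 * n - (i + 1)) + 1 := by omega
    rw [e1, pow_succ x]
    push_cast
    obtain ⟨j, rfl⟩ : ∃ j, n = i + 1 + j := ⟨n - (i + 1), by omega⟩
    have e2 : 2 * (i + 1 + j) - (i + 1) = i + 1 + 2 * j := by omega
    have e3 : i + 1 + j - (i + 1) = j := by omega
    rw [e2, e3]
    ring
  · unfold av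
    simp only [if_true, Nat.sub_zero]
    ring

/-- `g = q (q x)^4` -/
noncomputable def gv (x : ℝ) : ℝ := D.q * (D.q * x) ^ 4

/-- closed form of the sum of the `a` -/
noncomputable def Sa (x : ℝ) (k : ℕ) : ℝ :=
  1 + (1 - x) * (((D.q * x) ^ 2 + D.gv x) * (1 - D.gv x ^ k) / (1 - D.gv x) +
    2 * (D.q * x) ^ 2 * D.gv x ^ k / (1 - (D.q * x) ^ 2))

lemma gv_lt {x : ℝ} (hx : 0 < x) (hx1 : D.q ^ 2 * x < 1) : D.gv x < 1 := by
  unfold gv
  have hq := D.q1
  have h1 : 0 < D.q * x := mul_pos D.q0 hx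
  have h2 : (D.q : ℝ) * (D.q * x) < 1 := by
    calc (D.q : ℝ) * (D.q * x) = D.q ^ 2 * x := by ring
      _ < 1 := hx1
  have h3 : (D.q : ℝ) * x < 1 := by nlinarith
  calc (D.q : ℝ) * (D.q * x) ^ 4 = (D.q * (D.q * x)) * (D.q * x) ^ 3 := by ring
    _ < 1 * 1 := by
        apply mul_lt_mul h2 (pow_le_one₀ h1.le h3.le) (by positivity) zero_le_one
    _ = 1 := one_mul 1

lemma hsa {x : ℝ} (hx : 0 < x) (hx1 : D.q ^ 2 * x < 1) (k : ℕ) :
    HasSum (D.av x k) (D.Sa x k) := by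
  have hq := D.q1
  have h1 : 0 < D.q * x := mul_pos D.q0 hx
  have h2 : (D.q : ℝ) * (D.q * x) < 1 := by
    calc (D.q : ℝ) * (D.q * x) = D.q ^ 2 * x := by ring
      _ < 1 := hx1
  have h3 : (D.q : ℝ) * x < 1 := by nlinarith
  have hg := D.gv_lt hx hx1
  have hE : ∀ k : ℕ, ∑ i ∈ range (2 * k), (D.q * x) ^ (2 * (i + 1)) * (D.q : ℝ) ^ ((i + 1) / 2) =
      ((D.q * x) ^ 2 + D.gv x) * (1 - D.gv x ^ k) / (1 - D.gv x) := by
    intro k
    have hne : 1 - D.gv x ≠ 0 := by linarith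
    rw [eq_div_iff hne]
    induction k with
    | zero => simp
    | succ k ih =>
      have e : 2 * (k + 1) = 2 * k + 1 + 1 := by ring
      rw [e, sum_range_succ, sum_range_succ, add_mul, add_mul, ih]
      have e1 : (2 * k + 1) / 2 = k := by omega
      have e2 : (2 * k + 1 + 1) / 2 = k + 1 := by omega
      rw [e1, e2]
      have e3 : D.gv x ^ k = (D.q : ℝ) ^ k * (D.q * x) ^ (4 * k) := by
        unfold gv; rw [mul_pow, ← pow_mul]
      rw [pow_succ (D.gv x) k, e3]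
      have e4 : D.gv x = D.q * (D.q * x) ^ 4 := rfl
      rw [e4]
      ring
  have htail : HasSum (fun j : ℕ => (D.q * x) ^ (2 * (j + 2 * k + 1)) *
      (D.Nk k (j + 2 * k + 1) : ℝ))
      (2 * (D.q * x) ^ 2 * D.gv x ^ k / (1 - (D.q * x) ^ 2)) := by
    have hgeo : HasSum (fun j : ℕ => ((D.q * x) ^ 2) ^ j) (1 - (D.q * x) ^ 2)⁻¹ :=
      hasSum_geometric_of_lt_one (by positivity) (by nlinarith)
    have := hgeo.mul_left (2 * (D.q * x) ^ 2 * D.gv x ^ k)
    rw [← div_eq_mul_inv] at this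
    refine this.congr_fun ?_
    intro j
    unfold Nk
    rw [if_neg (by omega)]
    have e3 : D.gv x ^ k = (D.q : ℝ) ^ k * (D.q * x) ^ (4 * k) := by
      unfold gv; rw [mul_pow, ← pow_mul]
    rw [e3]
    push_cast
    ring
  have hB : HasSum (fun i : ℕ => (D.q * x) ^ (2 * (i + 1)) * (D.Nk k (i + 1) : ℝ))
      (((D.q * x) ^ 2 + D.gv x) * (1 - D.gv x ^ k) / (1 - D.gv x) +
        2 * (D.q * x) ^ 2 * D.gv x ^ k / (1 - (D.q * x) ^ 2)) := by
    have := (hasSum_nat_add_iff (f := fun i : ℕ => (D.q * x) ^ (2 * (i + 1)) *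
      (D.Nk k (i + 1) : ℝ)) (2 * k)).mp htail
    have hs : ∑ i ∈ range (2 * k), (D.q * x) ^ (2 * (i + 1)) * (D.Nk k (i + 1) : ℝ) =
        ∑ i ∈ range (2 * k), (D.q * x) ^ (2 * (i + 1)) * (D.q : ℝ) ^ ((i + 1) / 2) := by
      apply sum_congr rfl
      intro i hi
      rw [mem_range] at hi
      unfold Nk
      rw [if_pos (by omega)]
      push_cast
      rfl
    rw [hs, hE k, add_comm] at this
    exact this
  have hB2 := hB.mul_left (1 - x)
  have h4 : HasSum (fun i : ℕ => D.av x k (i + 1)) ((1 - x) *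
      (((D.q * x) ^ 2 + D.gv x) * (1 - D.gv x ^ k) / (1 - D.gv x) +
        2 * (D.q * x) ^ 2 * D.gv x ^ k / (1 - (D.q * x) ^ 2))) := by
    refine hB2.congr_fun ?_
    intro i
    unfold av
    rw [if_neg (Nat.succ_ne_zero i)]
  have h5 := (hasSum_nat_add_iff (f := D.av x k) 1).mp h4
  rw [sum_range_one] at h5
  have h6 : D.av x k 0 = 1 := by unfold av; simp
  rw [h6, add_comm] at h5
  exact h5

end DV

end Pool.Agent.H260TZ
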