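import Pool.Agent.H260TZ.Lat

namespace Pool.Agent.H260TZ

open Submodule

namespace DV

variable {R : Type} [CommRing R] [IsDomain R] (D : DV R)

/-- `(x, y) ↦ (x, x + t^k y)` -/
noncomputable def gam (k : ℕ) : (R × R) →ₗ[R] (R × R) :=
  (LinearMap.fst R R R).prod (LinearMap.fst R R R + D.t ^ k • LinearMap.snd R R R)

lemma gam_apply (k : ℕ) (v : R × R) : D.gam k v = (v.1, v.1 + D.t ^ k * v.2) := rfl

lemma gam_inj (k : ℕ) : Function.Injective (D.gam k) := by
  intro v w h
  rw [gam_apply, gam_apply, Prod.mk.injEq] at h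
  obtain ⟨h1, h2⟩ := h
  rw [h1] at h2
  exact Prod.ext h1 (mul_left_cancel₀ (D.tpow_ne k) (add_left_cancel h2))

open Classical in
/-- truncated valuation -/
noncomputable def lev (n : ℕ) (a : R) : ℕ := Nat.findGreatest (fun j => D.t ^ j ∣ a) n

lemma lev_le (n : ℕ) (a : R) : D.lev n a ≤ n := by
  classical
  exact Nat.findGreatest_le n

lemma lev_dvd (n : ℕ) (a : R) : D.t ^ (D.lev n a) ∣ a := by
  classical
  exact Nat.findGreatest_spec (P := fun j => D.t ^ j ∣ a) (Nat.zero_le n) (by simp)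

lemma dvd_iff_lev {n i : ℕ} (hi : i ≤ n) (a : R) : D.t ^ i ∣ a ↔ i ≤ D.lev n a := by
  classical
  constructor
  · intro h
    exact Nat.le_findGreatest hi h
  · intro h
    exact (pow_dvd_pow _ h).trans (D.lev_dvd n a)

lemma lev_unit (n : ℕ) (a : R) : ∃ u : Rˣ, D.t ^ n ∣ a - D.t ^ (D.lev n a) * u := by
  by_cases h : D.lev n a = n
  · refine ⟨1, ?_⟩
    rw [h]
    have := D.lev_dvd n a
    rw [h] at this
    rw [Units.val_one, mul_one]
    exact dvd_sub_self_right.mpr this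
  · have hlt : D.lev n a < n := lt_of_le_of_ne (D.lev_le n a) h
    obtain ⟨c, hc⟩ := D.lev_dvd n a
    have hcu : IsUnit c := by
      rw [← D.not_dvd_iff]
      rintro ⟨d, rfl⟩
      have : D.t ^ (D.lev n a + 1) ∣ a := ⟨d, hc.trans (by ring)⟩
      rw [D.dvd_iff_lev (n := n) (by omega)] at this
      omega
    obtain ⟨u, rfl⟩ := hcu
    exact ⟨u, by rw [← hc, sub_self]; exact dvd_zero _⟩

/-- `t^n ∣ d b` iff `t^(n-lev)` divides `b` -/
lemma dvd_mul_iff (n : ℕ) (d b : R) : D.t ^ n ∣ d * b ↔ D.t ^ (n - D.lev n d) ∣ b := by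
  obtain ⟨u, c, hc⟩ := D.lev_unit n d
  have hd : d = D.t ^ (D.lev n d) * u + D.t ^ n * c := by rw [← hc]; ring
  have hl := D.lev_le n d
  have e1 : d * b = D.t ^ (D.lev n d) * (u * b) + D.t ^ n * (c * b) := by
    conv_lhs => rw [hd]
    ring
  rw [e1, dvd_add_left (Dvd.intro _ rfl)]
  have e2 : D.t ^ n = D.t ^ (D.lev n d) * D.t ^ (n - D.lev n d) := by
    rw [← pow_add]; congr 1; omega
  rw [e2, mul_dvd_mul_iff_left (D.tpow_ne _)]
  rw [Units.dvd_mul_left]

/-- the type of a lattice -/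
noncomputable def kk (x : ℕ × (Bool × (Σ n, D.Q n))) : ℕ :=
  x.2.2.1 - D.lev x.2.2.1 (D.lift x.2.2.2)

lemma pr_delta (b : Bool) (n : ℕ) (z : D.Q n) : ∃ δ : R × R, δ.1 ≠ 0 ∧ δ.2 ≠ 0 ∧
    LinearMap.range ((LinearMap.mulLeft R δ).comp (D.gam (n - D.lev n (D.lift z)))) =
      D.pr b n z := by
  obtain ⟨u, c, hc⟩ := D.lev_unit n (D.lift z)
  set l := D.lev n (D.lift z) with hl
  have hln : l ≤ n := D.lev_le n _
  have hz : D.lift z = D.t ^ l * u + D.t ^ n * c := by rw [← hc]; ring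
  have ep : D.t ^ n = D.t ^ l * D.t ^ (n - l) := by rw [← pow_add]; congr 1; omega
  have hu : (u : R) * (↑u⁻¹ : R) = 1 := Units.mul_inv u
  cases b
  · refine ⟨(1, -(D.t ^ (l + 1) * u)), one_ne_zero,
      neg_ne_zero.mpr (mul_ne_zero (D.tpow_ne _) u.ne_zero), ?_⟩
    unfold pr
    simp only [Bool.false_eq_true, if_false]
    ext v
    rw [D.mem_K, LinearMap.mem_range]
    constructor
    · rintro ⟨w, rfl⟩
      rw [LinearMap.comp_apply, gam_apply, LinearMap.mulLeft_apply]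
      simp only [Prod.fst_mul, Prod.snd_mul]
      rw [hz]
      refine ⟨c * w.1 - u * w.2, ?_⟩
      rw [pow_succ' D.t n, ep]
      ring
    · rintro ⟨e, he⟩
      refine ⟨(v.1, -(v.1 * c * 0) + (-(↑u⁻¹ : R) * (e - c * v.1))), ?_⟩
      rw [LinearMap.comp_apply, gam_apply, LinearMap.mulLeft_apply]
      refine Prod.ext ?_ ?_
      · show 1 * v.1 = v.1
        rw [one_mul]
      · show -(D.t ^ (l + 1) * u) * (v.1 + D.t ^ (n - l) *
          (-(v.1 * c * 0) + (-(↑u⁻¹ : R) * (e - c * v.1)))) = v.2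
        have h2 : v.2 = D.t ^ (n + 1) * e - D.t * D.lift z * v.1 := by rw [← he]; ring
        rw [h2, hz, pow_succ' D.t n, ep]
        linear_combination (D.t * D.t ^ l * D.t ^ (n - l) * (e - c * v.1)) * hu
  · refine ⟨(-(D.t ^ l * u), 1), neg_ne_zero.mpr (mul_ne_zero (D.tpow_ne _) u.ne_zero),
      one_ne_zero, ?_⟩
    unfold pr
    simp only [if_true]
    ext v
    rw [D.mem_K, LinearMap.mem_range]
    constructor
    · rintro ⟨w, rfl⟩
      rw [LinearMap.comp_apply, gam_apply, LinearMap.mulLeft_apply]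
      simp only [Prod.fst_mul, Prod.snd_mul]
      rw [hz]
      refine ⟨c * (w.1 + D.t ^ (n - l) * w.2) + u * w.2, ?_⟩
      rw [ep]
      ring
    · rintro ⟨e, he⟩
      refine ⟨(v.2 - D.t ^ (n - l) * ((↑u⁻¹ : R) * (e - c * v.2)),
        (↑u⁻¹ : R) * (e - c * v.2)), ?_⟩
      rw [LinearMap.comp_apply, gam_apply, LinearMap.mulLeft_apply]
      refine Prod.ext ?_ ?_
      · show -(D.t ^ l * u) * (v.2 - D.t ^ (n - l) * ((↑u⁻¹ : R) * (e - c * v.2))) = v.1
        have h2 : v.1 = D.t ^ n * e - D.lift z * v.2 := by rw [← he]; ring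
        rw [h2, hz, ep]
        linear_combination (D.t ^ l * D.t ^ (n - l) * (e - c * v.2)) * hu
      · show 1 * (v.2 - D.t ^ (n - l) * ((↑u⁻¹ : R) * (e - c * v.2)) + D.t ^ (n - l) *
          ((↑u⁻¹ : R) * (e - c * v.2))) = v.2
        ring

lemma par_delta (x : ℕ × (Bool × (Σ n, D.Q n))) : ∃ δ : R × R, δ.1 ≠ 0 ∧ δ.2 ≠ 0 ∧
    LinearMap.range ((LinearMap.mulLeft R δ).comp (D.gam (D.kk x))) = D.par x := by
  obtain ⟨m, b, n, z⟩ := x
  obtain ⟨δ, h1, h2, h3⟩ := D.pr_delta b n z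
  refine ⟨(D.t ^ m * δ.1, D.t ^ m * δ.2), mul_ne_zero (D.tpow_ne _) h1,
    mul_ne_zero (D.tpow_ne _) h2, ?_⟩
  unfold par kk
  simp only
  rw [← h3, ← LinearMap.range_comp]
  congr 1
  refine LinearMap.ext fun v => ?_
  simp only [LinearMap.comp_apply, LinearMap.mulLeft_apply, sc_apply]
  refine Prod.ext ?_ ?_
  · simp only [Prod.fst_mul]; ring
  · simp only [Prod.snd_mul]; ring

/-- the colon lattice -/
noncomputable def II (k : ℕ) (L : Submodule R (R × R)) : Submodule R (R × R) where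
  carrier := {b | ∀ v, b * D.gam k v ∈ L.map (D.gam k)}
  add_mem' := by
    intro a b ha hb v
    rw [add_mul]
    exact Submodule.add_mem _ (ha v) (hb v)
  zero_mem' := by
    intro v
    rw [zero_mul]
    exact Submodule.zero_mem _
  smul_mem' := by
    intro c b hb v
    rw [smul_mul_assoc]
    exact Submodule.smul_mem _ _ (hb v)

lemma mem_II {k : ℕ} {L : Submodule R (R × R)} {b : R × R} :
    b ∈ D.II k L ↔ ∀ v, b * D.gam k v ∈ L.map (D.gam k) := Iff.rfl

lemma II_sc (k m : ℕ) (C : Submodule R (R × R)) :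
    D.II k (C.map (D.sc m)) = (D.II k C).map (D.sc m) := by
  have hcomm : (C.map (D.sc m)).map (D.gam k) = (C.map (D.gam k)).map (D.sc m) := by
    rw [← Submodule.map_comp, ← Submodule.map_comp]
    congr 1
    refine LinearMap.ext fun v => ?_
    simp only [LinearMap.comp_apply, gam_apply, sc_apply]
    refine Prod.ext rfl ?_
    ring
  ext b
  constructor
  · intro hb
    rw [D.mem_II] at hb
    rw [hcomm] at hb
    have h1 := hb (1, 0)
    have e1 : D.gam k (1, 0) = 1 := by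
      rw [gam_apply]
      refine Prod.ext rfl ?_
      simp
    rw [e1, mul_one] at h1
    obtain ⟨b', hb', rfl⟩ := h1
    refine ⟨b', ?_, rfl⟩
    show b' ∈ D.II k C
    rw [D.mem_II]
    intro v
    obtain ⟨w, hw, hw2⟩ := hb v
    have e2 : D.sc m b' * D.gam k v = D.sc m (b' * D.gam k v) := by
      simp only [sc_apply]
      refine Prod.ext ?_ ?_
      · simp only [Prod.fst_mul]; ring
      · simp only [Prod.snd_mul]; ring
    rw [e2] at hw2
    have := D.sc_inj m hw2
    rw [← this]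
    exact hw
  · rintro ⟨b', hb', rfl⟩
    rw [D.mem_II]
    intro v
    have hb'' : b' ∈ D.II k C := hb'
    have e2 : D.sc m b' * D.gam k v = D.sc m (b' * D.gam k v) := by
      simp only [sc_apply]
      refine Prod.ext ?_ ?_
      · simp only [Prod.fst_mul]; ring
      · simp only [Prod.snd_mul]; ring
    rw [e2, hcomm]
    exact Submodule.mem_map_of_mem ((D.mem_II).mp hb'' v)

/-- the linear map `(x, y) ↦ (0, x + t^k y)` -/
noncomputable def sh (k : ℕ) : (R × R) →ₗ[R] (R × R) :=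
  (0 : (R × R) →ₗ[R] R).prod (LinearMap.fst R R R + D.t ^ k • LinearMap.snd R R R)

lemma sh_apply (k : ℕ) (v : R × R) : D.sh k v = (0, v.1 + D.t ^ k * v.2) := rfl

lemma II_eq (k : ℕ) (C : Submodule R (R × R)) :
    D.II k C = (C ⊓ C.comap (D.sh k)).map (D.gam k) := by
  ext b
  constructor
  · intro hb
    rw [D.mem_II] at hb
    have e1 : D.gam k (1, 0) = 1 := by
      rw [gam_apply]
      refine Prod.ext rfl ?_
      simp
    have h1 := hb (1, 0)
    rw [e1, mul_one] at h1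
    obtain ⟨c, hc, rfl⟩ := h1
    refine ⟨c, ⟨hc, ?_⟩, rfl⟩
    show D.sh k c ∈ C
    obtain ⟨w, hw, hw2⟩ := hb (0, 1)
    have e2 : D.gam k c * D.gam k (0, 1) = D.gam k (D.sh k c) := by
      simp only [gam_apply, sh_apply]
      refine Prod.ext ?_ ?_
      · simp only [Prod.fst_mul]; ring
      · simp only [Prod.snd_mul]; ring
    rw [e2] at hw2
    rw [← D.gam_inj k hw2]
    exact hw
  · rintro ⟨c, ⟨hc, hc2⟩, rfl⟩
    rw [D.mem_II]
    intro v
    have e2 : D.gam k c * D.gam k v = D.gam k (v.1 • c + v.2 • D.sh k c) := by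
      simp only [gam_apply, sh_apply]
      refine Prod.ext ?_ ?_
      · simp only [Prod.fst_mul, Prod.fst_add, Prod.smul_fst, smul_eq_mul]; ring
      · simp only [Prod.snd_mul, Prod.snd_add, Prod.smul_snd, Prod.fst_add, Prod.smul_fst,
          smul_eq_mul]; ring
    rw [e2]
    exact Submodule.mem_map_of_mem (C.add_mem (C.smul_mem _ hc) (C.smul_mem _ hc2))

lemma idx_range_gam (k : ℕ) : idx (LinearMap.range (D.gam k)) = D.q ^ k := by
  rw [← D.idx_K_right k (-1)]
  congr 2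
  ext v
  rw [D.mem_K, LinearMap.mem_range]
  constructor
  · rintro ⟨w, rfl⟩
    rw [gam_apply]
    exact ⟨w.2, by simp only; ring⟩
  · rintro ⟨c, hc⟩
    refine ⟨(v.1, c), ?_⟩
    rw [gam_apply]
    refine Prod.ext rfl ?_
    simp only
    rw [← hc]; ring

/-- correction to the exponent -/
noncomputable def cor (k : ℕ) (b : Bool) (n : ℕ) (z : D.Q n) : ℕ :=
  if b then D.lev n (D.lift z * (D.t ^ k - D.lift z)) else 0

lemma idx_colon (k : ℕ) (b : Bool) (n : ℕ) (z : D.Q n) :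
    idx (D.pr b n z ⊓ (D.pr b n z).comap (D.sh k)) = D.q ^ (2 * ex b n - D.cor k b n z) := by
  unfold pr ex cor
  cases b
  · simp only [Bool.false_eq_true, if_false, Nat.sub_zero]
    rw [← D.idx_range_sc]
    congr 2
    ext v
    rw [D.range_sc_mem, Submodule.mem_inf, Submodule.mem_comap, D.mem_K, D.mem_K, sh_apply]
    simp only [mul_zero, zero_add, one_mul]
    constructor
    · rintro ⟨h1, h2⟩
      set ζ := D.lift z
      have h3 : D.t ^ (n + 1) ∣ (1 - D.t * ζ * D.t ^ k) * v.2 := by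
        have := dvd_sub h1 (h2.mul_left (D.t * ζ))
        refine this.trans (dvd_of_eq ?_)
        ring
      have hu : IsUnit (1 - D.t * ζ * D.t ^ k) := by
        rw [← D.not_dvd_iff]
        intro h
        have h4 : D.t ∣ D.t * ζ * D.t ^ k := ⟨ζ * D.t ^ k, by ring⟩
        have := dvd_add h h4
        rw [sub_add_cancel] at this
        exact D.not_dvd_one this
      have h5 : D.t ^ (n + 1) ∣ v.2 := (hu.dvd_mul_left).mp h3
      refine ⟨?_, h5⟩
      exact (dvd_add_left (h5.mul_left _)).mp h2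
    · rintro ⟨h1, h2⟩
      exact ⟨dvd_add (h1.mul_left _) h2, dvd_add h1 (h2.mul_left _)⟩
  · simp only [if_true]
    set ζ := D.lift z
    set l := D.lev n (ζ * (D.t ^ k - ζ)) with hl
    have hln : l ≤ n := D.lev_le n _
    have key : ∀ v : R × R, v ∈ D.K n 1 ζ ⊓ (D.K n 1 ζ).comap (D.sh k) ↔
        D.t ^ n ∣ v.1 + ζ * v.2 ∧ D.t ^ (n - l) ∣ v.2 := by
      intro v
      rw [Submodule.mem_inf, Submodule.mem_comap, D.mem_K, D.mem_K, sh_apply, hl,
        ← D.dvd_mul_iff n]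
      simp only [mul_zero, zero_add, one_mul]
      constructor
      · rintro ⟨h1, h2⟩
        refine ⟨h1, ?_⟩
        have := dvd_sub h2 (h1.mul_left ζ)
        refine this.trans (dvd_of_eq ?_)
        ring
      · rintro ⟨h1, h2⟩
        refine ⟨h1, ?_⟩
        have := dvd_add h2 (h1.mul_left ζ)
        refine this.trans (dvd_of_eq ?_)
        ring
    rw [idx_snd]
    have e1 : ((D.K n 1 ζ ⊓ (D.K n 1 ζ).comap (D.sh k)).map (LinearMap.snd R R R)) =
        Ideal.span {D.t ^ (n - l)} := by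
      ext a
      rw [Ideal.mem_span_singleton]
      constructor
      · rintro ⟨v, hv, rfl⟩
        exact ((key v).mp hv).2
      · intro ha
        refine ⟨(-(ζ * a), a), ?_, rfl⟩
        exact (key _).mpr ⟨by simp, ha⟩
    have e2 : ((D.K n 1 ζ ⊓ (D.K n 1 ζ).comap (D.sh k)).comap (LinearMap.inl R R R)) =
        Ideal.span {D.t ^ n} := by
      ext a
      rw [Ideal.mem_span_singleton, Submodule.mem_comap, key]
      simp
    rw [e1, e2, D.idx_span, D.idx_span, ← pow_add]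
    congr 1
    omega

lemma idx_II (k : ℕ) (x : ℕ × (Bool × (Σ n, D.Q n))) :
    idx (D.II k (D.par x)) =
      D.q ^ (2 * x.1 + k + (2 * ex x.2.1 x.2.2.1 - D.cor k x.2.1 x.2.2.1 x.2.2.2)) := by
  unfold par
  rw [II_sc, D.idx_map_sc, II_eq, idx_map_inj _ (D.gam_inj k), D.idx_range_gam, D.idx_colon,
    ← pow_add, ← pow_add]
  congr 1
  omega

lemma idx_II_ne (k : ℕ) (L : Lat R) : idx (D.II k L.1) ≠ 0 := by
  obtain ⟨x, rfl⟩ := D.parE.surjective L
  rw [D.parE_val, D.idx_II]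
  exact pow_ne_zero _ D.q_pos.ne'

end DV

end Pool.Agent.H260TZ
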