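import Pool.Agent.H260TZ.Lim2

namespace Pool.Agent.H260TZ

open Polynomial Filter Topology

lemma zval_unique {d : ℕ} {c : Fin d → Fin d → Fin d → ℤ} {R : Type} [CommRing R] {q : ℕ}
    (hq : 2 ≤ q) {s : ℤ} {v v' : ℚ} (h : ZVal c R q s v) (h' : ZVal c R q s v') : v = v' := by
  obtain ⟨P, Q, σ₀, h1, h2, h3⟩ := h
  obtain ⟨P', Q', σ₀', h1', h2', h3'⟩ := h'
  have hq1 : (1 : ℝ) < q := by exact_mod_cast (by omega : 1 < q)
  have hq0 : (0 : ℝ) < q := by linarith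
  have hpoly : P * Q' = P' * Q := by
    apply Polynomial.map_injective (algebraMap ℚ ℝ) (algebraMap ℚ ℝ).injective
    apply Polynomial.eq_of_infinite_eval_eq
    have hinj : Function.Injective (fun n : ℕ => (q : ℝ) ^ (-(max σ₀ σ₀' + 1 + (n : ℝ)))) := by
      intro a b hab
      have h4 := (Real.rpow_right_inj hq0 hq1.ne').mp hab
      have h5 : (a : ℝ) = b := by linarith
      exact_mod_cast h5
    refine Set.infinite_of_injective_forall_mem hinj ?_
    intro n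
    have hn : (0 : ℝ) ≤ n := Nat.cast_nonneg n
    have g1 : σ₀ < max σ₀ σ₀' + 1 + (n : ℝ) := by
      have := le_max_left σ₀ σ₀'
      linarith
    have g2 : σ₀' < max σ₀ σ₀' + 1 + (n : ℝ) := by
      have := le_max_right σ₀ σ₀'
      linarith
    obtain ⟨k1, k2⟩ := h1 _ g1
    obtain ⟨k1', k2'⟩ := h1' _ g2
    have k3 := k2.unique k2'
    rw [div_eq_div_iff k1 k1'] at k3
    rw [Set.mem_setOf_eq, eval_map_algebraMap, eval_map_algebraMap, map_mul, map_mul]
    exact k3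
  have h4 := congrArg (fun f => f.eval ((q : ℚ) ^ (-s))) hpoly
  simp only [eval_mul] at h4
  rw [h3, h3']
  congr 1
  rw [div_eq_div_iff h2 h2']
  exact h4

theorem topZeta_unique {d : ℕ} {c : Fin d → Fin d → Fin d → ℤ} {N D N' D' : ℚ[X]}
    (h : IsTopZeta c N D) (h' : IsTopZeta c N' D') : N * D' = N' * D := by
  obtain ⟨hD, H, hH, h1⟩ := h
  obtain ⟨hD', H', hH', h1'⟩ := h'
  apply Polynomial.eq_of_infinite_eval_eq
  have hinf : ((H ∪ H')ᶜ).Infinite := (hH.union hH').infinite_compl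
  have hinf2 : ((fun s : ℤ => (s : ℚ)) '' (H ∪ H')ᶜ).Infinite :=
    hinf.image (Int.cast_injective.injOn)
  refine hinf2.mono ?_
  rintro _ ⟨s, hs, rfl⟩
  have hsH : s ∉ H := fun hh => hs (Or.inl hh)
  have hsH' : s ∉ H' := fun hh => hs (Or.inr hh)
  haveI : Fact (Nat.Prime 2) := ⟨Nat.prime_two⟩
  obtain ⟨S, hS, h2⟩ := h1 2
  obtain ⟨S', hS', h2'⟩ := h1' 2
  obtain ⟨p, hp, hpS⟩ := (Nat.infinite_setOf_prime).exists_notMem_finite (hS.union hS')
  haveI : Fact p.Prime := ⟨hp⟩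
  obtain ⟨e, he, h3⟩ := h2 p (fun hh => hpS (Or.inl hh))
  obtain ⟨e', he', h3'⟩ := h2' p (fun hh => hpS (Or.inr hh))
  obtain ⟨hDs, h4⟩ := h3 s hsH
  obtain ⟨hDs', h4'⟩ := h3' s hsH'
  have heq : N.eval (s : ℚ) / D.eval (s : ℚ) = N'.eval (s : ℚ) / D'.eval (s : ℚ) := by
    have hz : ((N.eval (s : ℚ) / D.eval (s : ℚ) - N'.eval (s : ℚ) / D'.eval (s : ℚ) : ℚ) :
        ℚ_[2]) = 0 := by
      rw [← norm_eq_zero]
      apply le_antisymm _ (norm_nonneg _)
      apply le_of_forall_pos_le_add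
      intro ε hε
      rw [zero_add]
      obtain ⟨m, h5⟩ := h4 (ε / 2) (by linarith)
      obtain ⟨m', h5'⟩ := h4' (ε / 2) (by linarith)
      set M := max m m' with hM
      have hp2 : 0 < 2 ^ M := by positivity
      have f1 : 1 ≤ e' * 2 ^ M := Nat.mul_pos he' hp2
      have f1' : 1 ≤ e * 2 ^ M := Nat.mul_pos he hp2
      obtain ⟨v, hv, hv2⟩ := h5 (e' * 2 ^ M) f1
        ((pow_dvd_pow 2 (le_max_left m m')).mul_left e')
      obtain ⟨v', hv', hv2'⟩ := h5' (e * 2 ^ M) f1'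
        ((pow_dvd_pow 2 (le_max_right m m')).mul_left e)
      have hef : e' * (e * 2 ^ M) = e * (e' * 2 ^ M) := by ring
      rw [hef] at hv'
      have hq2 : 2 ≤ p ^ (e * (e' * 2 ^ M)) := by
        have : e * (e' * 2 ^ M) ≠ 0 := Nat.mul_ne_zero (by omega) (by omega)
        exact Nat.one_lt_pow this hp.one_lt
      have hvv := zval_unique hq2 hv hv'
      rw [← hvv] at hv2'
      have e1 : ((N.eval (s : ℚ) / D.eval (s : ℚ) - N'.eval (s : ℚ) / D'.eval (s : ℚ) : ℚ) :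
          ℚ_[2]) = ((v - N'.eval (s : ℚ) / D'.eval (s : ℚ) : ℚ) : ℚ_[2]) -
            ((v - N.eval (s : ℚ) / D.eval (s : ℚ) : ℚ) : ℚ_[2]) := by
        rw [← Rat.cast_sub]
        congr 1
        ring
      rw [e1]
      refine (norm_sub_le _ _).trans ?_
      linarith
    have hz2 : N.eval (s : ℚ) / D.eval (s : ℚ) - N'.eval (s : ℚ) / D'.eval (s : ℚ) = 0 := by
      exact_mod_cast hz
    linarith
  rw [div_eq_div_iff hDs hDs'] at heq
  rw [Set.mem_setOf_eq, eval_mul, eval_mul]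
  exact heq

end Pool.Agent.H260TZ
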